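import Pool.Agent.P.MP_d66c6d_pr.Defs

/-!
Brownian base: heat kernel, bridges between two points, restriction of paths, Green measures.
-/

namespace Pool.Agent.P.MP_d66c6d_pr

open MeasureTheory ProbabilityTheory Set Metric Filter Topology
open scoped ENNReal

/-- The heat kernel of planar Brownian motion. -/
noncomputable def hk (t : ℝ) (z : ℂ) : ℝ≥0∞ :=
  ENNReal.ofReal (Real.exp (-‖z‖ ^ 2 / (2 * t)) / (2 * Real.pi * t))

/-- The path of duration `t` from `x` to `y` built from the normalised bridge `b`. -/
noncomputable def seg (x y : ℂ) (t : ℝ) (b : Br) : Br :=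
  ⟨fun s => x + ((s : ℝ) : ℂ) * (y - x) + (√t : ℂ) * b s, by fun_prop⟩

/-- The restriction of a path to the time interval `[u, v]`, reparametrised by `[0, 1]`. -/
noncomputable def sub (u v : ℝ) (γ : Br) : Br :=
  ⟨fun s => γ (projIcc 0 1 zero_le_one (u + (s : ℝ) * (v - u))),
    γ.continuous.comp (continuous_projIcc.comp (by fun_prop))⟩

/-- Time reversal. -/
noncomputable def rev (γ : Br) : Br := sub 1 0 γ

/-- Concatenation: `α` runs on `[0, r]`, then `β` (translated so that it starts at the end of `α`)
runs on `[r, 1]`. -/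
noncomputable def cat (r : ℝ) (α β : Br) : Br :=
  sub 0 r⁻¹ α + sub (-r / (1 - r)) 1 β - ContinuousMap.const _ (β 0)

/-- Change of root of a closed path: it now starts at time `s`. -/
noncomputable def rot (s : ℝ) (γ : Br) : Br := cat (1 - s) (sub s 1 γ) (sub 0 s γ)

/-- The normalised bridge of the part before time `s`. -/
noncomputable def brL (s : ℝ) (b : Br) : Br :=
  (√s)⁻¹ • (sub 0 s b - seg 0 (sub 0 s b 1) 0 0)

/-- The normalised bridge of the part after time `s`. -/
noncomputable def brR (s : ℝ) (b : Br) : Br :=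
  (√(1 - s))⁻¹ • (sub s 1 b - seg (sub 0 s b 1) 0 0 0)

/-- The centred planar Gaussian law whose coordinates have variance `t`. -/
noncomputable def gm (t : ℝ) : Measure ℂ := (volume : Measure ℂ).withDensity (hk t)

/-- Brownian motion started at `x` and run for time `t` (free end point). -/
noncomputable def bmM (ν : Measure Br) (t : ℝ) (x : ℂ) : Measure Br :=
  ((gm t).prod ν).map fun p => seg x (x + p.1) t p.2

/-- Paths with a duration. -/
abbrev TP : Type := ℝ × Br

/-- The Brownian bridge measure of duration `t` from `x` to `y`, of mass `hk t (y - x)`. -/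
noncomputable def brM (ν : Measure Br) (t : ℝ) (x y : ℂ) : Measure Br :=
  hk t (y - x) • ν.map (seg x y t)

/-- The Green measure of paths from `x` to `y`: the integral of the bridge measures over the
duration. -/
noncomputable def grM (ν : Measure Br) (x y : ℂ) : Measure TP :=
  ((((volume : Measure ℝ).restrict (Ioi 0)).withDensity fun t => hk t (y - x)).prod ν).map
    fun p => (p.1, seg x y p.1 p.2)

/-- The timed path of a rooted loop. -/
noncomputable def lp (l : Lp) : TP := (l.2.1, seg l.1 l.1 l.2.1 l.2.2)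

theorem seg_apply (x y : ℂ) (t : ℝ) (b : Br) (s : unitInterval) :
    seg x y t b s = x + ((s : ℝ) : ℂ) * (y - x) + (√t : ℂ) * b s := rfl

theorem sub_apply (u v : ℝ) (γ : Br) (s : unitInterval) :
    sub u v γ s = γ (projIcc 0 1 zero_le_one (u + (s : ℝ) * (v - u))) := rfl

theorem range_lp (l : Lp) : range (lp l).2 = trace l := by
  unfold trace lp
  congr 1
  ext s
  simp [seg_apply]

theorem continuous_seg : Continuous fun p : ℂ × ℂ × ℝ × Br => seg p.1 p.2.1 p.2.2.1 p.2.2.2 := by
  refine ContinuousMap.continuous_of_continuous_uncurry _ ?_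
  change Continuous fun q : (ℂ × ℂ × ℝ × Br) × unitInterval =>
    q.1.1 + ((q.2 : ℝ) : ℂ) * (q.1.2.1 - q.1.1) + (√q.1.2.2.1 : ℂ) * q.1.2.2.2 q.2
  fun_prop

theorem continuous_sub : Continuous fun p : ℝ × ℝ × Br => sub p.1 p.2.1 p.2.2 := by
  refine ContinuousMap.continuous_of_continuous_uncurry _ ?_
  change Continuous fun q : (ℝ × ℝ × Br) × unitInterval =>
    q.1.2.2 (projIcc 0 1 zero_le_one (q.1.1 + (q.2 : ℝ) * (q.1.2.1 - q.1.1)))
  exact ContinuousEval.continuous_eval.comp
    ((by fun_prop : Continuous fun q : (ℝ × ℝ × Br) × unitInterval => q.1.2.2).prodMk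
      ((continuous_projIcc (h := zero_le_one)).comp (by fun_prop)))

@[fun_prop] theorem Measurable.seg' {α : Type*} [MeasurableSpace α] {x y : α → ℂ} {t : α → ℝ}
    {b : α → Br} (hx : Measurable x) (hy : Measurable y) (ht : Measurable t) (hb : Measurable b) :
    Measurable fun a => seg (x a) (y a) (t a) (b a) :=
  continuous_seg.measurable.comp (hx.prodMk (hy.prodMk (ht.prodMk hb)))

@[fun_prop] theorem Measurable.sub' {α : Type*} [MeasurableSpace α] {u v : α → ℝ}
    {b : α → Br} (hu : Measurable u) (hv : Measurable v) (hb : Measurable b) :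
    Measurable fun a => sub (u a) (v a) (b a) :=
  continuous_sub.measurable.comp (hu.prodMk (hv.prodMk hb))

@[fun_prop] theorem Measurable.rev' {α : Type*} [MeasurableSpace α] {b : α → Br}
    (hb : Measurable b) : Measurable fun a => rev (b a) :=
  Measurable.sub' measurable_const measurable_const hb

theorem continuous_cat (r : ℝ) : Continuous fun p : Br × Br => cat r p.1 p.2 := by
  unfold cat
  refine Continuous.sub (Continuous.add ?_ ?_) ?_
  · exact continuous_sub.comp (continuous_const.prodMk (continuous_const.prodMk continuous_fst))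
  · exact continuous_sub.comp (continuous_const.prodMk (continuous_const.prodMk continuous_snd))
  · exact ContinuousMap.continuous_const'.comp (by fun_prop)

@[fun_prop] theorem Measurable.cat' {α : Type*} [MeasurableSpace α] {r : α → ℝ} {a b : α → Br}
    (hr : Measurable r) (ha : Measurable a) (hb : Measurable b) :
    Measurable fun w => cat (r w) (a w) (b w) := by
  unfold cat
  refine Measurable.sub (Measurable.add ?_ ?_) ?_
  · exact Measurable.sub' measurable_const hr.inv ha
  · exact Measurable.sub' (hr.neg.div (measurable_const.sub hr)) measurable_const hb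
  · exact (ContinuousMap.continuous_const' (X := unitInterval) (Y := ℂ)).measurable.comp
      ((continuous_eval_const (0 : unitInterval)).measurable.comp hb)

@[fun_prop] theorem Measurable.rot' {α : Type*} [MeasurableSpace α] {s : α → ℝ} {b : α → Br}
    (hs : Measurable s) (hb : Measurable b) : Measurable fun w => rot (s w) (b w) :=
  Measurable.cat' (measurable_const.sub hs) (Measurable.sub' hs measurable_const hb)
    (Measurable.sub' measurable_const hs hb)

@[fun_prop] theorem Measurable.hk' {α : Type*} [MeasurableSpace α] {t : α → ℝ} {z : α → ℂ}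
    (ht : Measurable t) (hz : Measurable z) : Measurable fun a => hk (t a) (z a) := by
  unfold hk
  fun_prop

@[fun_prop] theorem Measurable.evalBr {α : Type*} [MeasurableSpace α] {b : α → Br}
    {s : α → unitInterval} (hb : Measurable b) (hs : Measurable s) :
    Measurable fun a => b a (s a) :=
  (ContinuousEval.continuous_eval (F := Br)).measurable.comp (hb.prodMk hs)

@[fun_prop] theorem measurable_lp : Measurable lp := by
  unfold lp
  fun_prop

theorem hk_ne_top (t : ℝ) (z : ℂ) : hk t z ≠ ∞ := ENNReal.ofReal_ne_top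

theorem lintegral_brM (ν : Measure Br) (t : ℝ) (x y : ℂ) {F : Br → ℝ≥0∞} (hF : Measurable F) :
    ∫⁻ γ, F γ ∂brM ν t x y = hk t (y - x) * ∫⁻ b, F (seg x y t b) ∂ν := by
  rw [brM, lintegral_smul_measure, lintegral_map hF (by fun_prop), smul_eq_mul]

theorem measurable_brM (ν : Measure Br) [SFinite ν] {α : Type*} [MeasurableSpace α] {t : α → ℝ}
    {x y : α → ℂ} {F : α → Br → ℝ≥0∞} (ht : Measurable t) (hx : Measurable x) (hy : Measurable y)
    (hF : Measurable fun p : α × Br => F p.1 p.2) :
    Measurable fun a => ∫⁻ γ, F a γ ∂brM ν (t a) (x a) (y a) := by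
  have h1 : ∀ a, ∫⁻ γ, F a γ ∂brM ν (t a) (x a) (y a) =
      hk (t a) (y a - x a) * ∫⁻ b, F a (seg (x a) (y a) (t a) b) ∂ν := fun a =>
    lintegral_brM ν _ _ _ (hF.comp (measurable_const.prodMk measurable_id))
  simp_rw [h1]
  refine Measurable.mul (Measurable.hk' ht (hy.sub hx)) ?_
  refine Measurable.lintegral_prod_right'
    (f := fun p : α × Br => F p.1 (seg (x p.1) (y p.1) (t p.1) p.2)) ?_
  exact hF.comp (measurable_fst.prodMk (Measurable.seg' (hx.comp measurable_fst)
    (hy.comp measurable_fst) (ht.comp measurable_fst) measurable_snd))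

theorem lintegral_grM (ν : Measure Br) [SFinite ν] (x y : ℂ) {Φ : TP → ℝ≥0∞} (hΦ : Measurable Φ) :
    ∫⁻ p, Φ p ∂grM ν x y = ∫⁻ t in Ioi (0 : ℝ), ∫⁻ γ, Φ (t, γ) ∂brM ν t x y := by
  have h0 : Measurable fun p : ℝ × Br => Φ (p.1, seg x y p.1 p.2) := by fun_prop
  have h1 : Measurable fun p : ℝ × Br => ((p.1, seg x y p.1 p.2) : TP) := by fun_prop
  have h2 : Measurable fun t : ℝ => hk t (y - x) := by fun_prop
  rw [grM, lintegral_map hΦ h1, lintegral_prod _ h0.aemeasurable,
    lintegral_withDensity_eq_lintegral_mul _ h2 h0.lintegral_prod_right']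
  refine lintegral_congr fun t => ?_
  rw [lintegral_brM ν t x y (F := fun γ => Φ (t, γ)) (by fun_prop)]
  rfl

theorem measurable_grM (ν : Measure Br) [SFinite ν] {α : Type*} [MeasurableSpace α]
    {x y : α → ℂ} {Φ : α → TP → ℝ≥0∞} (hx : Measurable x) (hy : Measurable y)
    (hΦ : Measurable fun p : α × TP => Φ p.1 p.2) :
    Measurable fun a => ∫⁻ p, Φ a p ∂grM ν (x a) (y a) := by
  have h1 : ∀ a, ∫⁻ p, Φ a p ∂grM ν (x a) (y a) =
      ∫⁻ t in Ioi (0 : ℝ), ∫⁻ γ, Φ a (t, γ) ∂brM ν t (x a) (y a) := fun a =>
    lintegral_grM ν _ _ (hΦ.comp (measurable_const.prodMk measurable_id))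
  simp_rw [h1]
  refine Measurable.lintegral_prod_right'
    (f := fun q : α × ℝ => ∫⁻ γ, Φ q.1 (q.2, γ) ∂brM ν q.2 (x q.1) (y q.1)) ?_
  refine measurable_brM ν measurable_snd (hx.comp measurable_fst) (hy.comp measurable_fst)
    (F := fun q γ => Φ q.1 (q.2, γ)) ?_
  exact hΦ.comp ((measurable_fst.comp measurable_fst).prodMk
    ((measurable_snd.comp measurable_fst).prodMk measurable_snd))

instance instSFiniteBrM (ν : Measure Br) [IsFiniteMeasure ν] (t : ℝ) (x y : ℂ) :
    IsFiniteMeasure (brM ν t x y) := by
  unfold brM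
  exact Measure.smul_finite _ (hk_ne_top _ _)

instance instSFiniteGrM (ν : Measure Br) [SFinite ν] (x y : ℂ) : SFinite (grM ν x y) := by
  unfold grM
  infer_instance

theorem IsBridge.prob {ν : Measure Br} (h : IsBridge ν) : IsProbabilityMeasure ν :=
  have := h.gauss
  inferInstance

end Pool.Agent.P.MP_d66c6d_pr
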