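import Pool.Agent.P.MP_d66c6d_pr.B.Iface

/-! Step BERN of the carpet project. -/

namespace Pool.Agent.P.MP_d66c6d_pr

open MeasureTheory ProbabilityTheory Set Metric Filter Topology
open scoped ENNReal

namespace BernA

/-- Real part of the value at a time. -/
noncomputable def reAt (s : unitInterval) : StrongDual ℝ C(unitInterval, ℂ) :=
  Complex.reCLM.comp (ContinuousMap.evalCLM ℝ s)

/-- Imaginary part of the value at a time. -/
noncomputable def imAt (s : unitInterval) : StrongDual ℝ C(unitInterval, ℂ) :=
  Complex.imCLM.comp (ContinuousMap.evalCLM ℝ s)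

theorem reAt_apply (s : unitInterval) (b : C(unitInterval, ℂ)) : reAt s b = (b s).re := rfl

theorem imAt_apply (s : unitInterval) (b : C(unitInterval, ℂ)) : imAt s b = (b s).im := rfl

theorem split (g : C(unitInterval, ℝ)) (w : ℂ) :
    (g • ContinuousMap.const unitInterval w : C(unitInterval, ℂ)) =
      w.re • (g • ContinuousMap.const unitInterval (1 : ℂ)) +
        w.im • (g • ContinuousMap.const unitInterval Complex.I) := by
  ext x
  simp only [ContinuousMap.smul_apply', ContinuousMap.const_apply, ContinuousMap.add_apply,
    ContinuousMap.smul_apply, Complex.real_smul]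
  conv_lhs => rw [← Complex.re_add_im w]
  ring

end BernA

open BernA in
theorem p_BERN :
    S_BERN := by
  intro L
  refine ⟨fun n => ∑ k : Fin (n + 1),
    (L (bernstein n k • ContinuousMap.const unitInterval (1 : ℂ)) • reAt (bernstein.z k) +
      L (bernstein n k • ContinuousMap.const unitInterval Complex.I) • imAt (bernstein.z k)),
    fun n => ?_, fun b => ?_⟩
  · refine Submodule.sum_mem _ fun k _ => Submodule.add_mem _ ?_ ?_
    · exact Submodule.smul_mem _ _ (Submodule.subset_span ⟨_, Or.inl fun b => rfl⟩)
    · exact Submodule.smul_mem _ _ (Submodule.subset_span ⟨_, Or.inr fun b => rfl⟩)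
  · have h := (L.continuous.tendsto b).comp (bernsteinApproximation_uniform (E := ℂ) b)
    refine h.congr fun n => ?_
    simp only [Function.comp_apply, bernsteinApproximation, map_sum,
      _root_.sum_apply, _root_.add_apply,
      _root_.smul_apply, reAt_apply, imAt_apply, smul_eq_mul]
    refine Finset.sum_congr rfl fun k _ => ?_
    rw [split, L.map_add, L.map_smul, L.map_smul, smul_eq_mul, smul_eq_mul]
    ring

end Pool.Agent.P.MP_d66c6d_pr
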