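import Pool.Agent.P.MP_d66c6d_pr.B.Iface

/-! Step BM of the carpet project. -/

namespace Pool.Agent.P.MP_d66c6d_pr

open MeasureTheory ProbabilityTheory Set Metric Filter Topology
open scoped ENNReal

namespace BmA

theorem tail_nu (ν : Measure Br) (hν : IsBridge ν) : ∃ c C : ℝ, 0 < c ∧ 0 < C ∧
    ∀ d : ℝ, 0 < d → ν {b | d ≤ ‖b‖} ≤ ENNReal.ofReal (C * Real.exp (-c * d ^ 2)) := by
  have := hν.gauss
  obtain ⟨c, hc, hi⟩ := IsGaussian.exists_integrable_exp_sq ν
  have h0 : 0 ≤ ∫ b, Real.exp (c * ‖b‖ ^ 2) ∂ν := integral_nonneg fun b => (Real.exp_pos _).le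
  refine ⟨c, ∫ b, Real.exp (c * ‖b‖ ^ 2) ∂ν + 1, hc, by linarith, fun d hd => ?_⟩
  have h1 := mul_meas_ge_le_integral_of_nonneg (μ := ν)
    (f := fun b : Br => Real.exp (c * ‖b‖ ^ 2))
    (Eventually.of_forall fun b => (Real.exp_pos _).le) hi (Real.exp (c * d ^ 2))
  have h2 : {b : Br | d ≤ ‖b‖} ⊆ {b | Real.exp (c * d ^ 2) ≤ Real.exp (c * ‖b‖ ^ 2)} := by
    intro b hb
    have hb' : d ≤ ‖b‖ := hb
    exact Real.exp_le_exp.2 (mul_le_mul_of_nonneg_left (by gcongr) hc.le)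
  refine (measure_mono h2).trans ?_
  rw [← ofReal_measureReal]
  refine ENNReal.ofReal_le_ofReal ?_
  have h3 := Real.exp_pos (c * d ^ 2)
  rw [neg_mul, Real.exp_neg, ← div_eq_mul_inv, le_div_iff₀ h3]
  linarith

theorem meas_out (x : ℂ) (d : ℝ) : MeasurableSet {γ : Br | ¬ range γ ⊆ ball x d} := by
  refine (IsOpen.measurableSet (s := {γ : Br | range γ ⊆ ball x d}) ?_).compl
  have h := ContinuousMap.isOpen_setOfPred_mapsTo (X := unitInterval) (Y := ℂ) isCompact_univ
    (isOpen_ball (x := x) (ε := d))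
  have e : {γ : Br | range γ ⊆ ball x d} = {f : Br | MapsTo f univ (ball x d)} := by
    ext γ
    simp only [mem_ofPred_eq, mapsTo_univ_iff, range_subset_iff]
  rw [e]
  exact h

theorem out_sub {t d : ℝ} (ht : 0 < t) (x : ℂ) :
    (fun p : ℂ × Br => seg x (x + p.1) t p.2) ⁻¹' {γ : Br | ¬ range γ ⊆ ball x d} ⊆
      ((ball (0 : ℂ) (d / 2))ᶜ ×ˢ univ) ∪ (univ ×ˢ {b : Br | d / 2 / √t ≤ ‖b‖}) := by
  rintro ⟨z, b⟩ hp
  by_contra hn
  apply hp
  simp only [mem_union, mem_prod, mem_compl_iff, mem_ball_zero_iff, mem_univ, and_true, true_and,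
    mem_ofPred_eq, not_or, not_not, not_le] at hn
  obtain ⟨h1, h2⟩ := hn
  have hq : 0 < √t := Real.sqrt_pos.2 ht
  rw [lt_div_iff₀ hq] at h2
  rintro _ ⟨s, rfl⟩
  rw [mem_ball, dist_eq_norm, seg_apply]
  have e : x + ((s : ℝ) : ℂ) * (x + z - x) + (√t : ℂ) * b s - x =
      ((s : ℝ) : ℂ) * z + (√t : ℂ) * b s := by ring
  rw [e]
  refine (norm_add_le _ _).trans_lt ?_
  rw [norm_mul, norm_mul, Complex.norm_real, Complex.norm_real, Real.norm_eq_abs, Real.norm_eq_abs,
    abs_of_nonneg s.2.1, abs_of_pos hq]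
  have h3 : ‖b s‖ ≤ ‖b‖ := b.norm_coe_le_norm s
  have h4 : (s : ℝ) * ‖z‖ ≤ ‖z‖ := mul_le_of_le_one_left (norm_nonneg _) s.2.2
  have h5 : √t * ‖b s‖ ≤ √t * ‖b‖ := mul_le_mul_of_nonneg_left h3 hq.le
  linarith

end BmA

open BmA in
theorem p_BM (hGM : S_GM) :
    S_BM := by
  intro ν hν
  have := hν.prob
  have hp : ∀ t : ℝ, 0 < t → IsProbabilityMeasure (gm t) := fun t ht =>
    have := (hGM t ht).1
    inferInstance
  refine ⟨fun t ht x => ⟨?_, fun F hF => ?_⟩, ?_⟩
  · have := hp t ht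
    exact Measure.isProbabilityMeasure_map (Measurable.aemeasurable (by fun_prop))
  · have := hp t ht
    have h0 : Measurable fun p : ℂ × Br => F (seg x (x + p.1) t p.2) := by fun_prop
    rw [bmM, lintegral_map hF (by fun_prop), lintegral_prod _ h0.aemeasurable, gm,
      lintegral_withDensity_eq_lintegral_mul _ (by fun_prop) h0.lintegral_prod_right',
      ← lintegral_add_left_eq_self (fun y => ∫⁻ γ, F γ ∂brM ν t x y) x]
    refine lintegral_congr fun z => ?_
    rw [lintegral_brM ν t x (x + z) hF, add_sub_cancel_left, Pi.mul_apply]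
  · obtain ⟨c, C, hc, hC, hν1⟩ := tail_nu ν hν
    have hm : 0 < min (1 / 16) (c / 4) := lt_min (by norm_num) (by linarith)
    have hm1 : min (1 / 16) (c / 4) ≤ 1 / 16 := min_le_left _ _
    have hm2 : min (1 / 16) (c / 4) ≤ c / 4 := min_le_right _ _
    refine ⟨min (1 / 16) (c / 4), 4 + C, hm, by linarith, fun d hd => ?_, fun t ht d hd x => ?_⟩
    · refine (hν1 d hd).trans (ENNReal.ofReal_le_ofReal ?_)
      have h1 : Real.exp (-c * d ^ 2) ≤ Real.exp (-min (1 / 16) (c / 4) * d ^ 2) :=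
        Real.exp_le_exp.2 (mul_le_mul_of_nonneg_right (by linarith) (sq_nonneg d))
      have h2 := Real.exp_pos (-min (1 / 16) (c / 4) * d ^ 2)
      nlinarith
    · have := hp t ht
      have hq : 0 < √t := Real.sqrt_pos.2 ht
      rw [bmM, Measure.map_apply (by fun_prop) (meas_out x d)]
      refine (measure_mono (out_sub ht x)).trans ((measure_union_le _ _).trans ?_)
      rw [Measure.prod_prod, Measure.prod_prod, measure_univ, measure_univ, mul_one, one_mul]
      have h1 := (hGM t ht).2.2.2.2.2.2.2.2.2 (d / 2) (by linarith)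
      have h2 := hν1 (d / 2 / √t) (by positivity)
      refine (add_le_add h1 h2).trans ?_
      rw [← ENNReal.ofReal_add (by positivity) (by positivity)]
      refine ENNReal.ofReal_le_ofReal ?_
      have hd2 : 0 ≤ d ^ 2 / t := by positivity
      have e1 : -(d / 2) ^ 2 / (4 * t) = -(1 / 16) * (d ^ 2 / t) := by
        field_simp
        ring
      have e2 : -c * (d / 2 / √t) ^ 2 = -(c / 4) * (d ^ 2 / t) := by
        rw [div_pow, Real.sq_sqrt ht.le]
        field_simp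
        ring
      have e3 : -min (1 / 16) (c / 4) * d ^ 2 / t = -min (1 / 16) (c / 4) * (d ^ 2 / t) := by
        ring
      rw [e1, e2, e3]
      have h3 : Real.exp (-(1 / 16) * (d ^ 2 / t)) ≤
          Real.exp (-min (1 / 16) (c / 4) * (d ^ 2 / t)) :=
        Real.exp_le_exp.2 (mul_le_mul_of_nonneg_right (by linarith) hd2)
      have h4 : Real.exp (-(c / 4) * (d ^ 2 / t)) ≤
          Real.exp (-min (1 / 16) (c / 4) * (d ^ 2 / t)) :=
        Real.exp_le_exp.2 (mul_le_mul_of_nonneg_right (by linarith) hd2)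
      nlinarith

end Pool.Agent.P.MP_d66c6d_pr
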