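import Pool.Agent.P.MP_d66c6d_pr.B.Iface

/-! Step CUT of the carpet project. -/

namespace Pool.Agent.P.MP_d66c6d_pr

open MeasureTheory ProbabilityTheory Set Metric Filter Topology
open scoped ENNReal

namespace CutA

/-- The clamp to the unit interval. -/
noncomputable abbrev pj (x : ℝ) : unitInterval := projIcc 0 1 zero_le_one x

theorem pj_coe {x : ℝ} (h0 : 0 ≤ x) (h1 : x ≤ 1) : ((pj x : unitInterval) : ℝ) = x := by
  unfold pj
  rw [projIcc_of_mem _ ⟨h0, h1⟩]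

theorem pj_val (s : unitInterval) : pj (s : ℝ) = s := projIcc_val zero_le_one s

theorem pj_le {x : ℝ} (h : x ≤ 0) : pj x = 0 := projIcc_of_le_left _ h

theorem pj_ge {x : ℝ} (h : 1 ≤ x) : pj x = 1 := projIcc_of_right_le _ h

theorem sub_ap (u v : ℝ) (γ : Br) (s : unitInterval) :
    sub u v γ s = γ (pj (u + (s : ℝ) * (v - u))) := rfl

theorem cat_ap {r : ℝ} (hr : r < 1) (α β : Br) (s : unitInterval) :
    cat r α β s = α (pj ((s : ℝ) / r)) + β (pj (((s : ℝ) - r) / (1 - r))) - β 0 := by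
  have h1 : (1 - r) ≠ 0 := by linarith
  unfold cat
  rw [ContinuousMap.sub_apply, ContinuousMap.add_apply, sub_ap, sub_ap, ContinuousMap.const_apply]
  congr 4
  · rw [div_eq_mul_inv]; ring
  · field_simp; ring

theorem sub_id (γ : Br) : sub 0 1 γ = γ := by
  ext s
  rw [sub_ap]
  congr 1
  rw [zero_add, sub_zero, mul_one, pj_val]

theorem conv_mem {u v s : ℝ} (hu : u ∈ Icc (0 : ℝ) 1) (hv : v ∈ Icc (0 : ℝ) 1)
    (hs : s ∈ Icc (0 : ℝ) 1) : u + s * (v - u) ∈ Icc (0 : ℝ) 1 := by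
  obtain ⟨hu0, hu1⟩ := hu
  obtain ⟨hv0, hv1⟩ := hv
  obtain ⟨hs0, hs1⟩ := hs
  constructor <;> nlinarith

theorem sub_sub {a b : ℝ} (u v : ℝ) (ha : a ∈ Icc (0 : ℝ) 1) (hb : b ∈ Icc (0 : ℝ) 1) (γ : Br) :
    sub a b (sub u v γ) = sub (u + a * (v - u)) (u + b * (v - u)) γ := by
  ext s
  have h := conv_mem ha hb s.2
  rw [sub_ap, sub_ap, sub_ap, pj_coe h.1 h.2]
  congr 2
  ring

theorem range_sub_le (u v : ℝ) (γ : Br) : range (sub u v γ) ⊆ range γ := by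
  rintro _ ⟨s, rfl⟩
  exact ⟨_, (sub_ap u v γ s).symm⟩

theorem range_sub {u v : ℝ} (hu : 0 ≤ u) (huv : u ≤ v) (hv : v ≤ 1) (γ : Br) :
    range (sub u v γ) = γ '' {s | u ≤ (s : ℝ) ∧ (s : ℝ) ≤ v} := by
  apply Subset.antisymm
  · rintro _ ⟨s, rfl⟩
    have h := conv_mem (u := u) (v := v) ⟨hu, huv.trans hv⟩ ⟨hu.trans huv, hv⟩ s.2
    refine ⟨pj (u + (s : ℝ) * (v - u)), ?_, (sub_ap u v γ s).symm⟩
    have h0 := s.2.1
    have h1 := s.2.2
    rw [mem_ofPred_eq, pj_coe h.1 h.2]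
    constructor <;> nlinarith
  · rintro _ ⟨t, ⟨ht1, ht2⟩, rfl⟩
    rcases huv.eq_or_lt with h | h
    · refine ⟨0, ?_⟩
      rw [sub_ap]
      congr 1
      have : u + ((0 : unitInterval) : ℝ) * (v - u) = t := by
        simp only [Icc.coe_zero, zero_mul, add_zero]
        linarith
      rw [this, pj_val]
    · have hp : 0 < v - u := by linarith
      refine ⟨⟨((t : ℝ) - u) / (v - u), div_nonneg (by linarith) hp.le,
        (div_le_one hp).2 (by linarith)⟩, ?_⟩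
      rw [sub_ap]
      congr 1
      have : u + ((t : ℝ) - u) / (v - u) * (v - u) = t := by
        field_simp
        ring
      rw [this, pj_val]

theorem range_split {s : ℝ} (hs : s ∈ Icc (0 : ℝ) 1) (γ : Br) :
    range γ = range (sub 0 s γ) ∪ range (sub s 1 γ) := by
  apply Subset.antisymm
  · rintro _ ⟨t, rfl⟩
    rw [range_sub le_rfl hs.1 hs.2, range_sub hs.1 hs.2 le_rfl]
    rcases le_total (t : ℝ) s with h | h
    · exact Or.inl ⟨t, ⟨t.2.1, h⟩, rfl⟩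
    · exact Or.inr ⟨t, ⟨h, t.2.2⟩, rfl⟩
  · exact union_subset (range_sub_le _ _ _) (range_sub_le _ _ _)

theorem rev_rev (γ : Br) : rev (rev γ) = γ := by
  unfold rev
  rw [sub_sub 1 0 ⟨zero_le_one, le_rfl⟩ ⟨le_rfl, zero_le_one⟩]
  have h1 : (1 : ℝ) + 1 * (0 - 1) = 0 := by ring
  have h2 : (1 : ℝ) + 0 * (0 - 1) = 1 := by ring
  rw [h1, h2, sub_id]

theorem range_rev (γ : Br) : range (rev γ) = range γ := by
  apply Subset.antisymm (range_sub_le _ _ _)
  conv_lhs => rw [← rev_rev γ]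
  exact range_sub_le _ _ _

theorem sub_cat_left {r : ℝ} (hr : r ∈ Ioo (0 : ℝ) 1) (α β : Br) :
    sub 0 r (cat r α β) = α := by
  ext s
  have h0 := s.2.1
  have h1 := s.2.2
  have hr0 := hr.1
  have hr1 := hr.2
  have hm := conv_mem (u := 0) (v := r) ⟨le_rfl, zero_le_one⟩ ⟨hr0.le, hr1.le⟩ s.2
  rw [sub_ap, cat_ap hr1, pj_coe hm.1 hm.2]
  have e1 : (0 + (s : ℝ) * (r - 0)) / r = s := by field_simp; ring
  have e2 : (0 + (s : ℝ) * (r - 0) - r) / (1 - r) ≤ 0 :=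
    div_nonpos_of_nonpos_of_nonneg (by nlinarith) (by linarith)
  rw [e1, pj_val, pj_le e2, add_sub_cancel_right]

theorem sub_cat_right {r : ℝ} (hr : r ∈ Ioo (0 : ℝ) 1) {α β : Br} (h : α 1 = β 0) :
    sub r 1 (cat r α β) = β := by
  ext s
  have h0 := s.2.1
  have h1 := s.2.2
  have hr0 := hr.1
  have hr1 := hr.2
  have hne : (1 - r) ≠ 0 := by linarith
  have hm := conv_mem (u := r) (v := 1) ⟨hr0.le, hr1.le⟩ ⟨zero_le_one, le_rfl⟩ s.2
  rw [sub_ap, cat_ap hr1, pj_coe hm.1 hm.2]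
  have e1 : (r + (s : ℝ) * (1 - r) - r) / (1 - r) = s := by field_simp; ring
  have e2 : 1 ≤ (r + (s : ℝ) * (1 - r)) / r := by
    rw [le_div_iff₀ hr0]
    nlinarith
  rw [e1, pj_val, pj_ge e2, h, add_sub_cancel_left]

theorem range_cat {r : ℝ} (hr : r ∈ Ioo (0 : ℝ) 1) {α β : Br} (h : α 1 = β 0) :
    range (cat r α β) = range α ∪ range β := by
  rw [range_split ⟨hr.1.le, hr.2.le⟩ (cat r α β), sub_cat_left hr, sub_cat_right hr h]

theorem sub_zero_ap {u : ℝ} (v : ℝ) (γ : Br) : sub u v γ 0 = γ (pj u) := by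
  rw [sub_ap]
  congr 2
  simp

theorem sub_one_ap (u : ℝ) {v : ℝ} (γ : Br) : sub u v γ 1 = γ (pj v) := by
  rw [sub_ap]
  congr 2
  simp

theorem cat_sub {r : ℝ} (hr : r ∈ Ioo (0 : ℝ) 1) (γ : Br) :
    cat r (sub 0 r γ) (sub r 1 γ) = γ := by
  ext s
  have h0 := s.2.1
  have h1 := s.2.2
  have hr0 := hr.1
  have hr1 := hr.2
  have hp : 0 < 1 - r := by linarith
  rw [cat_ap hr1, sub_zero_ap]
  rcases le_total (s : ℝ) r with h | h
  · have e2 : ((s : ℝ) - r) / (1 - r) ≤ 0 :=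
      div_nonpos_of_nonpos_of_nonneg (by linarith) hp.le
    rw [pj_le e2, sub_zero_ap, add_sub_cancel_right, sub_ap,
      pj_coe (div_nonneg h0 hr0.le) ((div_le_one hr0).2 h)]
    have e1 : 0 + (s : ℝ) / r * (r - 0) = s := by field_simp; ring
    rw [e1, pj_val]
  · have e2 : 1 ≤ (s : ℝ) / r := by
      rw [le_div_iff₀ hr0]
      linarith
    rw [pj_ge e2, sub_one_ap, add_sub_cancel_left, sub_ap,
      pj_coe (div_nonneg (by linarith) hp.le) ((div_le_one hp).2 (by linarith))]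
    have e1 : r + ((s : ℝ) - r) / (1 - r) * (1 - r) = s := by field_simp; ring
    rw [e1, pj_val]

theorem cat_zero {r : ℝ} (hr : r ∈ Ioo (0 : ℝ) 1) (α β : Br) : cat r α β 0 = α 0 := by
  have h := congrArg (fun δ : Br => δ 0) (sub_cat_left hr α β)
  simp only [sub_zero_ap, pj_le le_rfl] at h
  exact h

theorem cat_one {r : ℝ} (hr : r ∈ Ioo (0 : ℝ) 1) {α β : Br} (hab : α 1 = β 0) :
    cat r α β 1 = β 1 := by
  have h := congrArg (fun δ : Br => δ 1) (sub_cat_right hr hab)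
  simp only [sub_one_ap, pj_ge le_rfl] at h
  exact h

end CutA

open CutA in
theorem p_CUT :
    S_CUT := by
  refine ⟨sub_id, fun u _ v _ a ha b hb γ => sub_sub u v ha hb γ, range_sub_le,
    fun u v hu huv hv γ => range_sub hu huv hv γ, fun s hs γ => range_split hs γ,
    fun γ => ⟨range_rev γ, rev_rev γ⟩,
    fun r hr α β h => ⟨sub_cat_left hr α β, sub_cat_right hr h, range_cat hr h⟩,
    fun r hr γ => cat_sub hr γ, fun s hs γ hγ => ?_⟩
  have hr : 1 - s ∈ Ioo (0 : ℝ) 1 := ⟨by linarith [hs.2], by linarith [hs.1]⟩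
  have h : sub s 1 γ 1 = sub 0 s γ 0 := by
    rw [sub_one_ap, sub_zero_ap, pj_ge le_rfl, pj_le le_rfl, hγ]
  unfold rot
  refine ⟨sub_cat_left hr _ _, sub_cat_right hr h, ?_, ?_, ?_⟩
  · rw [range_cat hr h, union_comm, ← range_split ⟨hs.1.le, hs.2.le⟩]
  · rw [cat_zero hr, sub_zero_ap, sub_one_ap]
  · rw [cat_zero hr, cat_one hr h, sub_zero_ap, sub_one_ap]

end Pool.Agent.P.MP_d66c6d_pr
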