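import Pool.Agent.P.MP_d66c6d_pr.B.Iface

/-! Step GM of the carpet project. -/

namespace Pool.Agent.P.MP_d66c6d_pr

open MeasureTheory ProbabilityTheory Set Metric Filter Topology
open scoped ENNReal

namespace GmA

theorem hk_split {t : ℝ} (ht : 0 < t) (p : ℝ × ℝ) :
    gaussianPDF 0 t.toNNReal p.1 * gaussianPDF 0 t.toNNReal p.2 =
      hk t (Complex.equivRealProdCLM.symm p) := by
  unfold gaussianPDF hk
  rw [← ENNReal.ofReal_mul (gaussianPDFReal_nonneg _ _ _)]
  congr 1
  unfold gaussianPDFReal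
  have h1 : ((t.toNNReal : NNReal) : ℝ) = t := Real.coe_toNNReal t ht.le
  have h2 : ‖Complex.equivRealProdCLM.symm p‖ ^ 2 = p.1 ^ 2 + p.2 ^ 2 := by
    rw [Complex.sq_norm, Complex.normSq_apply, Complex.equivRealProdCLM_symm_apply_re,
      Complex.equivRealProdCLM_symm_apply_im]
    ring
  have h3 : (0 : ℝ) < 2 * Real.pi * t := by positivity
  have h4 : √(2 * Real.pi * t) * √(2 * Real.pi * t) = 2 * Real.pi * t := Real.mul_self_sqrt h3.le
  have h5 : -(p.1 ^ 2 + p.2 ^ 2) / (2 * t) = -(p.1 - 0) ^ 2 / (2 * t) + -(p.2 - 0) ^ 2 / (2 * t) := by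
    ring
  rw [h1, h2, h5, Real.exp_add, div_eq_mul_inv (Real.exp _ * Real.exp _)]
  nth_rewrite 3 [← h4]
  rw [mul_inv]
  ring

theorem gm_eq {t : ℝ} (ht : 0 < t) :
    gm t = ((gaussianReal 0 t.toNNReal).prod (gaussianReal 0 t.toNNReal)).map
      Complex.equivRealProdCLM.symm := by
  have hv : t.toNNReal ≠ 0 := by
    simpa using ht
  ext s hs
  have hm : Measurable (Complex.equivRealProdCLM.symm : ℝ × ℝ → ℂ) :=
    Complex.equivRealProdCLM.symm.continuous.measurable
  rw [Measure.map_apply hm hs, gaussianReal_of_var_ne_zero _ hv,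
    prod_withDensity (measurable_gaussianPDF _ _) (measurable_gaussianPDF _ _),
    withDensity_apply _ (hm hs), gm, withDensity_apply _ hs]
  simp_rw [hk_split ht]
  exact ((Complex.volume_preserving_equiv_real_prod.symm).setLIntegral_comp_preimage_emb
    Complex.measurableEquivRealProd.symm.measurableEmbedding (hk t) s).symm

theorem gauss {t : ℝ} (ht : 0 < t) : IsGaussian (gm t) := by
  rw [gm_eq ht]
  infer_instance

theorem mass {t : ℝ} (ht : 0 < t) : ∫⁻ z, hk t z = 1 := by
  have := gauss ht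
  have h : gm t univ = 1 := measure_univ
  rwa [gm, withDensity_apply _ MeasurableSet.univ, Measure.restrict_univ] at h

theorem int_mul {t : ℝ} (ht : 0 < t) (f g : ℝ → ℝ) (hf : Continuous f) (hg : Continuous g) :
    ∫ z, f z.re * g z.im ∂gm t =
      (∫ x, f x ∂gaussianReal 0 t.toNNReal) * ∫ x, g x ∂gaussianReal 0 t.toNNReal := by
  have hm : Measurable (Complex.equivRealProdCLM.symm : ℝ × ℝ → ℂ) :=
    Complex.equivRealProdCLM.symm.continuous.measurable
  have hc : Continuous fun z : ℂ => f z.re * g z.im := by fun_prop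
  rw [gm_eq ht, integral_map hm.aemeasurable hc.aestronglyMeasurable, ← integral_prod_mul]
  simp only [Complex.equivRealProdCLM_symm_apply_re, Complex.equivRealProdCLM_symm_apply_im]

theorem int_sq {t : ℝ} (ht : 0 < t) : ∫ x, x * x ∂gaussianReal 0 t.toNNReal = t := by
  have h := variance_fun_id_gaussianReal (μ := 0) (v := t.toNNReal)
  rw [variance_eq_integral measurable_id'.aemeasurable, integral_id_gaussianReal,
    Real.coe_toNNReal t ht.le] at h
  simpa [pow_two] using h

theorem scale {t : ℝ} (ht : 0 < t) : (gm 1).map (fun z => (√t : ℂ) * z) = gm t := by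
  have hm : Measurable (Complex.equivRealProdCLM.symm : ℝ × ℝ → ℂ) :=
    Complex.equivRealProdCLM.symm.continuous.measurable
  have hs : Measurable fun x : ℝ => √t * x := by fun_prop
  have h1 : (gaussianReal 0 (1 : ℝ).toNNReal).map (fun x => √t * x) =
      gaussianReal 0 t.toNNReal := by
    rw [gaussianReal_map_const_mul, mul_zero]
    congr 1
    apply NNReal.eq
    simp [Real.sq_sqrt ht.le, ht.le]
  rw [gm_eq one_pos, gm_eq ht, ← h1, Measure.map_prod_map _ _ hs hs,
    Measure.map_map (by fun_prop) hm, Measure.map_map hm (hs.prodMap hs)]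
  congr 1
  funext p
  apply Complex.ext <;> simp

theorem rot_inv {t : ℝ} (u : ℂ) (hu : ‖u‖ = 1) : (gm t).map (fun z => u * z) = gm t := by
  have hm : Measurable fun z : ℂ => u * z := by fun_prop
  let c : Circle := ⟨u, by simpa [Submonoid.unitSphere] using hu⟩
  have hp : MeasurePreserving (fun z : ℂ => u * z) volume volume :=
    (rotation c).measurePreserving
  have he : MeasurableEmbedding (fun z : ℂ => u * z) :=
    (rotation c).toHomeomorph.measurableEmbedding
  ext s hs
  rw [Measure.map_apply hm hs, gm, withDensity_apply _ (hm hs), withDensity_apply _ hs,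
    ← hp.setLIntegral_comp_preimage_emb he (hk t) s]
  refine lintegral_congr fun z => ?_
  simp [hk, hu]

theorem tail {t : ℝ} (ht : 0 < t) {d : ℝ} (hd : 0 < d) :
    gm t (ball 0 d)ᶜ ≤ ENNReal.ofReal (4 * Real.exp (-d ^ 2 / (4 * t))) := by
  have hb : MeasurableSet (ball (0 : ℂ) d)ᶜ := measurableSet_ball.compl
  have h2 : (0 : ℝ) < 2 * t := by positivity
  rw [gm, withDensity_apply _ hb]
  calc ∫⁻ z in (ball (0 : ℂ) d)ᶜ, hk t z
      ≤ ∫⁻ z in (ball (0 : ℂ) d)ᶜ,
          ENNReal.ofReal (2 * Real.exp (-d ^ 2 / (4 * t))) * hk (2 * t) z := by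
        refine setLIntegral_mono' hb fun z hz => ?_
        have hz' : d ≤ ‖z‖ := by simpa using hz
        unfold hk
        rw [← ENNReal.ofReal_mul (by positivity)]
        refine ENNReal.ofReal_le_ofReal ?_
        have h3 : d ^ 2 ≤ ‖z‖ ^ 2 := pow_le_pow_left₀ hd.le hz' 2
        have h4 : -‖z‖ ^ 2 / (2 * t) ≤ -d ^ 2 / (4 * t) + -‖z‖ ^ 2 / (2 * (2 * t)) := by
          have h5 : -d ^ 2 / (4 * t) + -‖z‖ ^ 2 / (2 * (2 * t)) - -‖z‖ ^ 2 / (2 * t) =
              (‖z‖ ^ 2 - d ^ 2) / (4 * t) := by
            field_simp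
            ring
          have h6 : 0 ≤ (‖z‖ ^ 2 - d ^ 2) / (4 * t) := div_nonneg (by linarith) (by positivity)
          linarith
        have h7 := Real.exp_le_exp.2 h4
        rw [Real.exp_add] at h7
        have h8 : 2 * Real.exp (-d ^ 2 / (4 * t)) *
            (Real.exp (-‖z‖ ^ 2 / (2 * (2 * t))) / (2 * Real.pi * (2 * t))) =
            Real.exp (-d ^ 2 / (4 * t)) * Real.exp (-‖z‖ ^ 2 / (2 * (2 * t))) /
              (2 * Real.pi * t) := by
          field_simp
        rw [h8]
        exact div_le_div_of_nonneg_right h7 (by positivity)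
    _ ≤ ∫⁻ z, ENNReal.ofReal (2 * Real.exp (-d ^ 2 / (4 * t))) * hk (2 * t) z :=
        setLIntegral_le_lintegral _ _
    _ = ENNReal.ofReal (2 * Real.exp (-d ^ 2 / (4 * t))) := by
        rw [lintegral_const_mul _ (by fun_prop), mass h2, mul_one]
    _ ≤ _ := by
        refine ENNReal.ofReal_le_ofReal ?_
        have := Real.exp_pos (-d ^ 2 / (4 * t))
        linarith

end GmA

theorem p_GM :
    S_GM := by
  intro t ht
  refine ⟨GmA.gauss ht, GmA.mass ht, ?_, ?_, ?_, ?_, ?_, GmA.scale ht,
    fun u hu => GmA.rot_inv u hu, fun d hd => GmA.tail ht hd⟩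
  · have h := GmA.int_mul ht (fun x => x) (fun _ => 1) continuous_id continuous_const
    simpa [integral_id_gaussianReal] using h
  · have h := GmA.int_mul ht (fun _ => 1) (fun x => x) continuous_const continuous_id
    simpa [integral_id_gaussianReal] using h
  · have h := GmA.int_mul ht (fun x => x * x) (fun _ => 1) (by fun_prop) continuous_const
    rw [GmA.int_sq ht] at h
    simpa using h
  · have h := GmA.int_mul ht (fun _ => 1) (fun x => x * x) continuous_const (by fun_prop)
    rw [GmA.int_sq ht] at h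
    simpa using h
  · have h := GmA.int_mul ht (fun x => x) (fun x => x) continuous_id continuous_id
    simpa [integral_id_gaussianReal] using h

end Pool.Agent.P.MP_d66c6d_pr
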