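import Pool.Agent.P.MP_d66c6d_pr.B.Iface

/-! Step GU of the carpet project. -/

namespace Pool.Agent.P.MP_d66c6d_pr

open MeasureTheory ProbabilityTheory Set Metric Filter Topology
open scoped ENNReal

namespace GuA

variable {E : Type} [NormedAddCommGroup E] [NormedSpace ℝ E] [MeasurableSpace E]
  {μ₁ μ₂ : Measure E} {S : Set (StrongDual ℝ E)}

theorem span {f : E → ℝ} (i1 : ∀ L : StrongDual ℝ E, Integrable (fun x => L x * f x) μ₁)
    (i2 : ∀ L : StrongDual ℝ E, Integrable (fun x => L x * f x) μ₂)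
    (h : ∀ L ∈ S, ∫ x, L x * f x ∂μ₁ = ∫ x, L x * f x ∂μ₂) :
    ∀ L ∈ Submodule.span ℝ S, ∫ x, L x * f x ∂μ₁ = ∫ x, L x * f x ∂μ₂ := by
  intro L hL
  induction hL using Submodule.span_induction with
  | mem L hL => exact h L hL
  | zero => simp
  | add L L' _ _ a b =>
    simp only [add_apply, add_mul]
    rw [integral_add (i1 L) (i1 L'), integral_add (i2 L) (i2 L'), a, b]
  | smul c L _ a =>
    simp only [smul_apply, smul_eq_mul, mul_assoc, integral_const_mul, a]

theorem lim [BorelSpace E] (μ : Measure E) [IsFiniteMeasure μ] {u : ℕ → StrongDual ℝ E}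
    {L : StrongDual ℝ E} (h : ∀ x, Tendsto (fun n => u n x) atTop (𝓝 (L x))) :
    Tendsto (fun n => charFunDual μ (u n)) atTop (𝓝 (charFunDual μ L)) := by
  simp only [charFunDual_apply]
  refine tendsto_integral_of_dominated_convergence (fun _ => 1) (fun n => by fun_prop)
    (integrable_const _) (fun n => Eventually.of_forall fun x => (Complex.norm_exp_ofReal_mul_I _).le)
    (Eventually.of_forall fun x => ?_)
  exact ((by fun_prop : Continuous fun t : ℝ => Complex.exp (t * Complex.I)).tendsto _).comp (h x)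

end GuA

theorem p_GU :
    S_GU := by
  intro E _ _ _ _ _ _ μ₁ μ₂ g1 g2 S hS h1 h2
  have i : ∀ (μ : Measure E) [IsGaussian μ] (L' L : StrongDual ℝ E),
      Integrable (fun x => L x * L' x) μ := fun μ _ L' L =>
    (IsGaussian.memLp_dual μ L 2 (by simp)).integrable_mul (IsGaussian.memLp_dual μ L' 2 (by simp))
  have m1 := GuA.span (μ₁ := μ₁) (μ₂ := μ₂) (S := S) (f := fun _ => 1)
    (fun L => by simpa using IsGaussian.integrable_dual μ₁ L)
    (fun L => by simpa using IsGaussian.integrable_dual μ₂ L) (by simpa using h1)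
  have m2 : ∀ L ∈ Submodule.span ℝ S, ∫ x, L x * L x ∂μ₁ = ∫ x, L x * L x ∂μ₂ := fun L hL =>
    GuA.span (i μ₁ L) (i μ₂ L) (fun L' hL' => by
      simpa only [mul_comm] using GuA.span (i μ₁ L') (i μ₂ L') (fun M hM => h2 M hM L' hL') L hL) L hL
  refine Measure.ext_of_charFunDual (funext fun L => ?_)
  obtain ⟨u, hu, hl⟩ := hS L
  refine tendsto_nhds_unique (GuA.lim μ₁ hl) ((GuA.lim μ₂ hl).congr fun n => ?_)
  have a := m1 _ (hu n)
  have b := m2 _ (hu n)
  simp only [mul_one] at a
  rw [IsGaussian.charFunDual_eq, IsGaussian.charFunDual_eq, integral_complex_ofReal,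
    integral_complex_ofReal, variance_eq_sub (IsGaussian.memLp_dual μ₁ _ 2 (by simp)),
    variance_eq_sub (IsGaussian.memLp_dual μ₂ _ 2 (by simp))]
  simp only [Pi.pow_apply, sq, a, b]

end Pool.Agent.P.MP_d66c6d_pr
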