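import Pool.Agent.P.MP_d66c6d_pr.B.Defs

/-!
Statements of the Brownian base.
-/

namespace Pool.Agent.P.MP_d66c6d_pr

open MeasureTheory ProbabilityTheory Set Metric Filter Topology
open scoped ENNReal

-- deps:
/-- Gaussian measures are determined by means and second moments of a total family of
functionals. -/
def S_GU : Prop := ∀ (E : Type) [NormedAddCommGroup E] [NormedSpace ℝ E] [CompleteSpace E]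
  [SecondCountableTopology E] [MeasurableSpace E] [BorelSpace E] (μ₁ μ₂ : Measure E),
  IsGaussian μ₁ → IsGaussian μ₂ → ∀ S : Set (StrongDual ℝ E),
  (∀ L : StrongDual ℝ E, ∃ u : ℕ → StrongDual ℝ E, (∀ n, u n ∈ Submodule.span ℝ S) ∧
    ∀ x, Tendsto (fun n => u n x) atTop (𝓝 (L x))) →
  (∀ L ∈ S, ∫ x, L x ∂μ₁ = ∫ x, L x ∂μ₂) →
  (∀ L ∈ S, ∀ L' ∈ S, ∫ x, L x * L' x ∂μ₁ = ∫ x, L x * L' x ∂μ₂) → μ₁ = μ₂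

-- deps:
/-- The coordinate functionals of path space are total. -/
def S_BERN : Prop := ∀ L : StrongDual ℝ Br, ∃ u : ℕ → StrongDual ℝ Br,
  (∀ n, u n ∈ Submodule.span ℝ {M : StrongDual ℝ Br | ∃ s : unitInterval,
    (∀ b, M b = (b s).re) ∨ (∀ b, M b = (b s).im)}) ∧
  ∀ b, Tendsto (fun n => u n b) atTop (𝓝 (L b))

-- deps: GU BERN
/-- Uniqueness of the bridge law, time reversal, and the end points. -/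
def S_REV : Prop := (∀ ν ν' : Measure Br, IsBridge ν → IsBridge ν' → ν = ν') ∧
  ∀ ν : Measure Br, IsBridge ν → (∀ᵐ b ∂ν, b 0 = 0 ∧ b 1 = 0) ∧ ν.map rev = ν ∧
    (∀ t x y, (brM ν t x y).map rev = brM ν t y x) ∧
    (∀ x y, (grM ν x y).map (fun p => ((p.1, rev p.2) : TP)) = grM ν y x) ∧
    (∀ t x y, ∀ᵐ γ ∂brM ν t x y, γ 0 = x ∧ γ 1 = y) ∧
    (∀ x y, ∀ᵐ p ∂grM ν x y, 0 < p.1 ∧ p.2 0 = x ∧ p.2 1 = y) ∧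
    (∀ t x, ∀ᵐ γ ∂bmM ν t x, γ 0 = x) ∧
    ∀ᵐ l ∂loopMeasure ν, 0 < l.2.1 ∧ (lp l).2 0 = l.1 ∧ (lp l).2 1 = l.1

-- deps:
/-- The planar Gaussian law. -/
def S_GM : Prop := ∀ t : ℝ, 0 < t → IsGaussian (gm t) ∧ ∫⁻ z, hk t z = 1 ∧
  ∫ z, z.re ∂gm t = 0 ∧ ∫ z, z.im ∂gm t = 0 ∧ ∫ z, z.re * z.re ∂gm t = t ∧
  ∫ z, z.im * z.im ∂gm t = t ∧ ∫ z, z.re * z.im ∂gm t = 0 ∧
  (gm 1).map (fun z => (√t : ℂ) * z) = gm t ∧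
  (∀ u : ℂ, ‖u‖ = 1 → (gm t).map (fun z => u * z) = gm t) ∧
  ∀ d : ℝ, 0 < d → gm t (ball 0 d)ᶜ ≤ ENNReal.ofReal (4 * Real.exp (-d ^ 2 / (4 * t)))

-- deps: GU BERN GM
/-- The value at time `s` and the two normalised half bridges are independent. -/
def S_TRI : Prop := ∀ ν : Measure Br, IsBridge ν → ∀ s ∈ Ioo (0 : ℝ) 1,
  ν.map (fun b => (sub 0 s b 1, brL s b, brR s b)) = (gm (s * (1 - s))).prod (ν.prod ν)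

-- deps: TRI
/-- Splitting a bridge at the time fraction `s`. -/
def S_SPLIT : Prop := ∀ ν : Measure Br, IsBridge ν → ∀ t : ℝ, 0 < t → ∀ s ∈ Ioo (0 : ℝ) 1,
  ∀ (x y : ℂ) (Ψ : Br × Br → ℝ≥0∞), Measurable Ψ →
  ∫⁻ γ, Ψ (sub 0 s γ, sub s 1 γ) ∂brM ν t x y =
    ∫⁻ z, ∫⁻ α, ∫⁻ β, Ψ (α, β) ∂brM ν ((1 - s) * t) z y ∂brM ν (s * t) x z

-- deps: SPLIT
/-- Marking a time of a path under the Green measure. -/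
def S_MARK : Prop := ∀ ν : Measure Br, IsBridge ν → ∀ (x y : ℂ) (Ψ : TP × TP → ℝ≥0∞),
  Measurable Ψ →
  ∫⁻ p, ENNReal.ofReal p.1 * ∫⁻ s in Ioo (0 : ℝ) 1,
      Ψ ((s * p.1, sub 0 s p.2), ((1 - s) * p.1, sub s 1 p.2)) ∂volume ∂grM ν x y =
    ∫⁻ z, ∫⁻ p, ∫⁻ q, Ψ (p, q) ∂grM ν z y ∂grM ν x z

-- deps: SPLIT CUT
/-- Shift invariance of the closed bridges with Lebesgue root. -/
def S_SHIFT : Prop := ∀ ν : Measure Br, IsBridge ν → ∀ t : ℝ, 0 < t → ∀ s ∈ Ioo (0 : ℝ) 1,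
  (∀ Ψ : Br × Br → ℝ≥0∞, Measurable Ψ →
    ∫⁻ x, ∫⁻ γ, Ψ (sub 0 s γ, sub s 1 γ) ∂brM ν t x x =
      ∫⁻ x, ∫⁻ γ, Ψ (sub (1 - s) 1 γ, sub 0 (1 - s) γ) ∂brM ν t x x) ∧
  ∀ F : Br → ℝ≥0∞, Measurable F →
    ∫⁻ x, ∫⁻ γ, F (rot s γ) ∂brM ν t x x = ∫⁻ x, ∫⁻ γ, F γ ∂brM ν t x x

-- deps: SHIFT
/-- The loop measure through the Green measures, and the change of root. -/
def S_LOOP : Prop := ∀ ν : Measure Br, IsBridge ν → ∀ Φ : TP → ℝ≥0∞, Measurable Φ →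
  ∫⁻ l, Φ (lp l) ∂loopMeasure ν = ∫⁻ x, ∫⁻ p, (ENNReal.ofReal p.1)⁻¹ * Φ p ∂grM ν x x ∧
  ∫⁻ l, ENNReal.ofReal (lp l).1 * ∫⁻ s in Ioo (0 : ℝ) 1, Φ ((lp l).1, rot s (lp l).2) ∂volume
    ∂loopMeasure ν = ∫⁻ x, ∫⁻ p, Φ p ∂grM ν x x

-- deps: GM
/-- Brownian motion with free end point: mass one, mixture of bridges, Gaussian tail of the
maximum. -/
def S_BM : Prop := ∀ ν : Measure Br, IsBridge ν →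
  (∀ t : ℝ, 0 < t → ∀ x, IsProbabilityMeasure (bmM ν t x) ∧ ∀ F : Br → ℝ≥0∞, Measurable F →
    ∫⁻ γ, F γ ∂bmM ν t x = ∫⁻ y, ∫⁻ γ, F γ ∂brM ν t x y) ∧
  ∃ c C : ℝ, 0 < c ∧ 0 < C ∧
    (∀ d : ℝ, 0 < d → ν {b | d ≤ ‖b‖} ≤ ENNReal.ofReal (C * Real.exp (-c * d ^ 2))) ∧
    ∀ t : ℝ, 0 < t → ∀ d : ℝ, 0 < d → ∀ x,
      bmM ν t x {γ | ¬ range γ ⊆ ball x d} ≤ ENNReal.ofReal (C * Real.exp (-c * d ^ 2 / t))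

-- deps:
/-- Deterministic facts on restriction, concatenation and change of root. -/
def S_CUT : Prop :=
  (∀ γ : Br, sub 0 1 γ = γ) ∧
  (∀ u ∈ Icc (0 : ℝ) 1, ∀ v ∈ Icc (0 : ℝ) 1, ∀ a ∈ Icc (0 : ℝ) 1, ∀ b ∈ Icc (0 : ℝ) 1, ∀ γ : Br,
    sub a b (sub u v γ) = sub (u + a * (v - u)) (u + b * (v - u)) γ) ∧
  (∀ u v : ℝ, ∀ γ : Br, range (sub u v γ) ⊆ range γ) ∧
  (∀ u v : ℝ, 0 ≤ u → u ≤ v → v ≤ 1 → ∀ γ : Br,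
    range (sub u v γ) = γ '' {s | u ≤ (s : ℝ) ∧ (s : ℝ) ≤ v}) ∧
  (∀ s ∈ Icc (0 : ℝ) 1, ∀ γ : Br, range γ = range (sub 0 s γ) ∪ range (sub s 1 γ)) ∧
  (∀ γ : Br, range (rev γ) = range γ ∧ rev (rev γ) = γ) ∧
  (∀ r ∈ Ioo (0 : ℝ) 1, ∀ α β : Br, α 1 = β 0 →
    sub 0 r (cat r α β) = α ∧ sub r 1 (cat r α β) = β ∧
    range (cat r α β) = range α ∪ range β) ∧
  (∀ r ∈ Ioo (0 : ℝ) 1, ∀ γ : Br, cat r (sub 0 r γ) (sub r 1 γ) = γ) ∧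
  ∀ s ∈ Ioo (0 : ℝ) 1, ∀ γ : Br, γ 1 = γ 0 →
    sub 0 (1 - s) (rot s γ) = sub s 1 γ ∧ sub (1 - s) 1 (rot s γ) = sub 0 s γ ∧
    range (rot s γ) = range γ ∧ rot s γ 0 = sub 0 s γ 1 ∧ rot s γ 1 = rot s γ 0

end Pool.Agent.P.MP_d66c6d_pr
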