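import Pool.Agent.P.MP_d66c6d_pr.B.Iface

/-! Step LOOP of the carpet project. -/

namespace Pool.Agent.P.MP_d66c6d_pr

open MeasureTheory ProbabilityTheory Set Metric Filter Topology
open scoped ENNReal

namespace LoopA

theorem dens (t : ℝ) (ht : 0 < t) (x : ℂ) :
    ENNReal.ofReal (1 / (2 * Real.pi * t ^ 2)) = (ENNReal.ofReal t)⁻¹ * hk t (x - x) := by
  rw [hk, sub_self, norm_zero, ← ENNReal.ofReal_inv_of_pos ht,
    ← ENNReal.ofReal_mul (inv_pos.2 ht).le]
  congr 1
  have : Real.exp (-(0 : ℝ) ^ 2 / (2 * t)) = 1 := by simp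
  rw [this]
  have := Real.pi_pos
  field_simp

theorem first (ν : Measure Br) [SFinite ν] (Φ : TP → ℝ≥0∞) (hΦ : Measurable Φ) :
    ∫⁻ l, Φ (lp l) ∂loopMeasure ν =
      ∫⁻ x, ∫⁻ t in Ioi (0 : ℝ), (ENNReal.ofReal t)⁻¹ * ∫⁻ γ, Φ (t, γ) ∂brM ν t x x := by
  have h0 : Measurable fun l : Lp => Φ (lp l) := hΦ.comp measurable_lp
  rw [loopMeasure, lintegral_prod _ h0.aemeasurable]
  refine lintegral_congr fun x => ?_
  have h1 : Measurable fun p : ℝ × Br => Φ (lp (x, p)) :=
    h0.comp (measurable_const.prodMk measurable_id)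
  have h2 : Measurable fun t : ℝ => ENNReal.ofReal (1 / (2 * Real.pi * t ^ 2)) := by fun_prop
  rw [lintegral_prod _ h1.aemeasurable,
    lintegral_withDensity_eq_lintegral_mul _ h2 h1.lintegral_prod_right']
  refine setLIntegral_congr_fun measurableSet_Ioi fun t ht => ?_
  have h3 : Measurable fun γ : Br => Φ (t, γ) := hΦ.comp (measurable_const.prodMk measurable_id)
  simp only [Pi.mul_apply]
  rw [lintegral_brM ν t x x h3, dens t ht x, mul_assoc]
  rfl

end LoopA

theorem p_LOOP (hSHIFT : S_SHIFT) :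
    S_LOOP := by
  intro ν hν Φ hΦ
  have := hν.prob
  constructor
  · rw [LoopA.first ν Φ hΦ]
    refine lintegral_congr fun x => ?_
    have h1 : Measurable fun p : TP => (ENNReal.ofReal p.1)⁻¹ * Φ p := by fun_prop
    rw [lintegral_grM ν x x h1]
    refine lintegral_congr fun t => ?_
    have h3 : Measurable fun γ : Br => Φ (t, γ) := hΦ.comp (measurable_const.prodMk measurable_id)
    exact (lintegral_const_mul _ h3).symm
  · have hR : Measurable fun q : TP × ℝ => Φ (q.1.1, rot q.2 q.1.2) :=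
      hΦ.comp ((measurable_fst.comp measurable_fst).prodMk
        (Measurable.rot' measurable_snd (measurable_snd.comp measurable_fst)))
    have hI : Measurable fun p : TP => ∫⁻ s in Ioo (0 : ℝ) 1, Φ (p.1, rot s p.2) :=
      hR.lintegral_prod_right'
    have hΨ : Measurable fun p : TP =>
        ENNReal.ofReal p.1 * ∫⁻ s in Ioo (0 : ℝ) 1, Φ (p.1, rot s p.2) :=
      (ENNReal.measurable_ofReal.comp measurable_fst).mul hI
    rw [LoopA.first ν _ hΨ]
    have hA : ∀ x : ℂ, ∫⁻ t in Ioi (0 : ℝ), (ENNReal.ofReal t)⁻¹ * ∫⁻ γ,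
        (ENNReal.ofReal t * ∫⁻ s in Ioo (0 : ℝ) 1, Φ (t, rot s γ)) ∂brM ν t x x =
        ∫⁻ t in Ioi (0 : ℝ), ∫⁻ s in Ioo (0 : ℝ) 1, ∫⁻ γ, Φ (t, rot s γ) ∂brM ν t x x := by
      intro x
      refine setLIntegral_congr_fun measurableSet_Ioi fun t ht => ?_
      have h3 : Measurable fun γ : Br => ∫⁻ s in Ioo (0 : ℝ) 1, Φ (t, rot s γ) :=
        hI.comp (measurable_const.prodMk measurable_id)
      have h4 : Measurable fun q : Br × ℝ => Φ (t, rot q.2 q.1) :=
        hR.comp ((measurable_const.prodMk measurable_fst).prodMk measurable_snd)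
      rw [lintegral_const_mul _ h3, ← mul_assoc,
        ENNReal.inv_mul_cancel (ENNReal.ofReal_pos.2 ht).ne' ENNReal.ofReal_ne_top, one_mul]
      exact lintegral_lintegral_swap h4.aemeasurable
    have hB : ∀ x : ℂ, ∫⁻ p, Φ p ∂grM ν x x =
        ∫⁻ t in Ioi (0 : ℝ), ∫⁻ γ, Φ (t, γ) ∂brM ν t x x := fun x => lintegral_grM ν x x hΦ
    simp only [hA, hB]
    have hM : Measurable fun q : (ℂ × ℝ) × ℝ =>
        ∫⁻ γ, Φ (q.1.2, rot q.2 γ) ∂brM ν q.1.2 q.1.1 q.1.1 :=
      measurable_brM ν (measurable_snd.comp measurable_fst) (measurable_fst.comp measurable_fst)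
        (measurable_fst.comp measurable_fst) (F := fun q γ => Φ (q.1.2, rot q.2 γ))
        (hR.comp (((measurable_snd.comp (measurable_fst.comp measurable_fst)).prodMk
          measurable_snd).prodMk (measurable_snd.comp measurable_fst)))
    have hN : Measurable fun q : ℂ × ℝ => ∫⁻ γ, Φ (q.2, γ) ∂brM ν q.2 q.1 q.1 :=
      measurable_brM ν measurable_snd measurable_fst measurable_fst
        (F := fun q γ => Φ (q.2, γ))
        (hΦ.comp ((measurable_snd.comp measurable_fst).prodMk measurable_snd))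
    have hM' : Measurable fun q : ℂ × ℝ => ∫⁻ s in Ioo (0 : ℝ) 1,
        ∫⁻ γ, Φ (q.2, rot s γ) ∂brM ν q.2 q.1 q.1 := hM.lintegral_prod_right'
    refine (lintegral_lintegral_swap hM'.aemeasurable).trans
      (Eq.trans ?_ (lintegral_lintegral_swap hN.aemeasurable).symm)
    refine setLIntegral_congr_fun measurableSet_Ioi fun t ht => ?_
    have hM2 : Measurable fun q : ℂ × ℝ => ∫⁻ γ, Φ (t, rot q.2 γ) ∂brM ν t q.1 q.1 :=
      measurable_brM ν (α := ℂ × ℝ) (t := fun _ => t) (x := fun q => q.1) (y := fun q => q.1)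
        (F := fun q γ => Φ (t, rot q.2 γ)) measurable_const measurable_fst measurable_fst
        (by fun_prop)
    refine (lintegral_lintegral_swap hM2.aemeasurable).trans ?_
    have h5 : ∀ s ∈ Ioo (0 : ℝ) 1, ∫⁻ x, ∫⁻ γ, Φ (t, rot s γ) ∂brM ν t x x =
        ∫⁻ x, ∫⁻ γ, Φ (t, γ) ∂brM ν t x x := fun s hs =>
      (hSHIFT ν hν t ht s hs).2 (fun γ => Φ (t, γ))
        (hΦ.comp (measurable_const.prodMk measurable_id))
    rw [setLIntegral_congr_fun measurableSet_Ioo h5, setLIntegral_const]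
    simp

end Pool.Agent.P.MP_d66c6d_pr
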