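import Pool.Agent.P.MP_d66c6d_pr.B.Iface

/-! Step MARK of the carpet project. -/

namespace Pool.Agent.P.MP_d66c6d_pr

open MeasureTheory ProbabilityTheory Set Metric Filter Topology
open scoped ENNReal

namespace MarkA

theorem scale {t : ℝ} (ht : 0 < t) {G : ℝ → ℝ≥0∞} (hG : Measurable G) :
    ENNReal.ofReal t * ∫⁻ s in Ioo (0 : ℝ) 1, G (s * t) = ∫⁻ a in Ioo (0 : ℝ) t, G a := by
  have h1 : ∫⁻ s in Ioo (0 : ℝ) 1, G (s * t) = ∫⁻ s, (Ioo (0 : ℝ) t).indicator G (s * t) := by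
    rw [← lintegral_indicator measurableSet_Ioo]
    refine lintegral_congr fun s => ?_
    by_cases hs : s ∈ Ioo (0 : ℝ) 1
    · have : s * t ∈ Ioo (0 : ℝ) t := ⟨mul_pos hs.1 ht, by nlinarith [hs.2]⟩
      rw [indicator_of_mem hs, indicator_of_mem this]
    · have : s * t ∉ Ioo (0 : ℝ) t := by
        intro h
        refine hs ⟨?_, ?_⟩
        · by_contra h'
          nlinarith [h.1, not_lt.mp h']
        · by_contra h'
          nlinarith [h.2, not_lt.mp h']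
      rw [indicator_of_notMem hs, indicator_of_notMem this]
  have h2 : ∫⁻ s, (Ioo (0 : ℝ) t).indicator G (s * t) =
      ∫⁻ a, (Ioo (0 : ℝ) t).indicator G a ∂(Measure.map (fun s : ℝ => s * t) volume) :=
    (lintegral_map (hG.indicator measurableSet_Ioo) (by fun_prop)).symm
  rw [h1, h2, Real.map_volume_mul_right ht.ne', lintegral_smul_measure, smul_eq_mul, ← mul_assoc,
    ← ENNReal.ofReal_mul ht.le, abs_of_pos (inv_pos.mpr ht), mul_inv_cancel₀ ht.ne',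
    ENNReal.ofReal_one, one_mul, lintegral_indicator measurableSet_Ioo]

theorem cv {H : ℝ × ℝ → ℝ≥0∞} (hH : Measurable H) :
    ∫⁻ t in Ioi (0 : ℝ), ENNReal.ofReal t * ∫⁻ s in Ioo (0 : ℝ) 1, H (s * t, (1 - s) * t) =
      ∫⁻ a in Ioi (0 : ℝ), ∫⁻ b in Ioi (0 : ℝ), H (a, b) := by
  set K : ℝ × ℝ → ℝ≥0∞ := (Ioi (0 : ℝ) ×ˢ Ioi (0 : ℝ)).indicator H with hK
  have hKm : Measurable K := hH.indicator (measurableSet_Ioi.prod measurableSet_Ioi)
  have h1 : ∫⁻ t in Ioi (0 : ℝ), ENNReal.ofReal t * ∫⁻ s in Ioo (0 : ℝ) 1, H (s * t, (1 - s) * t) =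
      ∫⁻ t, ∫⁻ a, K (a, t - a) := by
    rw [← lintegral_indicator measurableSet_Ioi]
    refine lintegral_congr fun t => ?_
    by_cases ht : t ∈ Ioi (0 : ℝ)
    · rw [indicator_of_mem ht]
      have e : ∀ s : ℝ, H (s * t, (1 - s) * t) = (fun a => H (a, t - a)) (s * t) := fun s => by
        simp only
        congr 2
        ring
      simp_rw [e]
      rw [scale (mem_Ioi.mp ht) (G := fun a => H (a, t - a)) (by fun_prop),
        ← lintegral_indicator measurableSet_Ioo]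
      refine lintegral_congr fun a => ?_
      by_cases ha : a ∈ Ioo (0 : ℝ) t
      · rw [indicator_of_mem ha, hK, indicator_of_mem]
        exact ⟨ha.1, sub_pos.mpr ha.2⟩
      · rw [indicator_of_notMem ha, hK, indicator_of_notMem]
        exact fun h => ha ⟨h.1, sub_pos.mp h.2⟩
    · rw [indicator_of_notMem ht]
      symm
      refine (lintegral_congr fun a => ?_).trans lintegral_zero
      rw [hK, indicator_of_notMem]
      intro h
      have h1 : (0 : ℝ) < a := h.1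
      have h2 : (0 : ℝ) < t - a := h.2
      exact ht (mem_Ioi.mpr (by linarith))
  rw [h1, lintegral_lintegral_swap (f := fun t a => K (a, t - a))
    (Measurable.aemeasurable (hKm.comp (by fun_prop))), ← lintegral_indicator measurableSet_Ioi]
  refine lintegral_congr fun a => ?_
  rw [lintegral_sub_right_eq_self (fun b => K (a, b)) a]
  by_cases ha : a ∈ Ioi (0 : ℝ)
  · rw [indicator_of_mem ha, ← lintegral_indicator measurableSet_Ioi]
    refine lintegral_congr fun b => ?_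
    by_cases hb : b ∈ Ioi (0 : ℝ)
    · rw [indicator_of_mem hb, hK, indicator_of_mem]
      exact ⟨ha, hb⟩
    · rw [indicator_of_notMem hb, hK, indicator_of_notMem]
      exact fun h => hb h.2
  · rw [indicator_of_notMem ha]
    refine (lintegral_congr fun b => ?_).trans lintegral_zero
    rw [hK, indicator_of_notMem]
    exact fun h => ha h.1

end MarkA

theorem p_MARK (hSPLIT : S_SPLIT) :
    S_MARK := by
  intro ν hν x y Ψ hΨ
  have := hν.prob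
  -- inner integrals
  have m1 : Measurable fun w : (ℝ × ℝ × ℂ) × Br =>
      ∫⁻ β, Ψ ((w.1.1, w.2), (w.1.2.1, β)) ∂brM ν w.1.2.1 w.1.2.2 y :=
    measurable_brM ν (by fun_prop) (by fun_prop) measurable_const
      (F := fun (w : (ℝ × ℝ × ℂ) × Br) β => Ψ ((w.1.1, w.2), (w.1.2.1, β)))
      (hΨ.comp (by fun_prop))
  have m2 : Measurable fun w : ℝ × ℝ × ℂ =>
      ∫⁻ α, ∫⁻ β, Ψ ((w.1, α), (w.2.1, β)) ∂brM ν w.2.1 w.2.2 y ∂brM ν w.1 x w.2.2 :=
    measurable_brM ν (by fun_prop) measurable_const (by fun_prop)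
      (F := fun (w : ℝ × ℝ × ℂ) α => ∫⁻ β, Ψ ((w.1, α), (w.2.1, β)) ∂brM ν w.2.1 w.2.2 y) m1
  set H : ℝ × ℝ → ℝ≥0∞ := fun w =>
    ∫⁻ z, ∫⁻ α, ∫⁻ β, Ψ ((w.1, α), (w.2, β)) ∂brM ν w.2 z y ∂brM ν w.1 x z with hH
  have hHm : Measurable H :=
    Measurable.lintegral_prod_right' (f := fun w : (ℝ × ℝ) × ℂ =>
      ∫⁻ α, ∫⁻ β, Ψ ((w.1.1, α), (w.1.2, β)) ∂brM ν w.1.2 w.2 y ∂brM ν w.1.1 x w.2)
      (m2.comp (f := fun w : (ℝ × ℝ) × ℂ => (w.1.1, w.1.2, w.2)) (by fun_prop))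
  have m3 : Measurable fun w : TP × ℝ =>
      Ψ ((w.2 * w.1.1, sub 0 w.2 w.1.2), ((1 - w.2) * w.1.1, sub w.2 1 w.1.2)) :=
    hΨ.comp (by fun_prop)
  have m4 : Measurable fun p : TP => ∫⁻ s in Ioo (0 : ℝ) 1,
      Ψ ((s * p.1, sub 0 s p.2), ((1 - s) * p.1, sub s 1 p.2)) ∂volume :=
    Measurable.lintegral_prod_right' (f := fun w : TP × ℝ =>
      Ψ ((w.2 * w.1.1, sub 0 w.2 w.1.2), ((1 - w.2) * w.1.1, sub w.2 1 w.1.2))) m3
  have L : ∫⁻ p, ENNReal.ofReal p.1 * ∫⁻ s in Ioo (0 : ℝ) 1,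
      Ψ ((s * p.1, sub 0 s p.2), ((1 - s) * p.1, sub s 1 p.2)) ∂volume ∂grM ν x y =
      ∫⁻ t in Ioi (0 : ℝ), ENNReal.ofReal t * ∫⁻ s in Ioo (0 : ℝ) 1, H (s * t, (1 - s) * t) := by
    rw [lintegral_grM ν x y (Φ := fun p => ENNReal.ofReal p.1 * ∫⁻ s in Ioo (0 : ℝ) 1,
      Ψ ((s * p.1, sub 0 s p.2), ((1 - s) * p.1, sub s 1 p.2)) ∂volume)
      (Measurable.mul (by fun_prop) m4)]
    refine setLIntegral_congr_fun measurableSet_Ioi fun t ht => ?_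
    simp only
    rw [lintegral_const_mul' _ _ ENNReal.ofReal_ne_top]
    congr 1
    rw [lintegral_lintegral_swap (f := fun (γ : Br) (s : ℝ) =>
      Ψ ((s * t, sub 0 s γ), ((1 - s) * t, sub s 1 γ)))
      (Measurable.aemeasurable (m3.comp (f := fun w : Br × ℝ => (((t, w.1) : TP), w.2))
        (by fun_prop)))]
    refine setLIntegral_congr_fun measurableSet_Ioo fun s hs => ?_
    exact hSPLIT ν hν t ht s hs x y (fun w => Ψ ((s * t, w.1), ((1 - s) * t, w.2)))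
      (hΨ.comp (by fun_prop))
  rw [L, MarkA.cv hHm]
  -- reorder the right side
  have m5 : Measurable fun w : ℂ × TP => ∫⁻ q, Ψ (w.2, q) ∂grM ν w.1 y :=
    measurable_grM ν measurable_fst measurable_const
      (Φ := fun (w : ℂ × TP) q => Ψ (w.2, q)) (hΨ.comp (by fun_prop))
  have R : ∀ z : ℂ, ∫⁻ p, ∫⁻ q, Ψ (p, q) ∂grM ν z y ∂grM ν x z =
      ∫⁻ a in Ioi (0 : ℝ), ∫⁻ b in Ioi (0 : ℝ),
        ∫⁻ α, ∫⁻ β, Ψ ((a, α), (b, β)) ∂brM ν b z y ∂brM ν a x z := fun z => by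
    rw [lintegral_grM ν x z (Φ := fun p => ∫⁻ q, Ψ (p, q) ∂grM ν z y)
      (m5.comp (f := fun p : TP => (z, p)) (by fun_prop))]
    refine lintegral_congr fun a => ?_
    have e : ∀ α : Br, ∫⁻ q, Ψ ((a, α), q) ∂grM ν z y =
        ∫⁻ b in Ioi (0 : ℝ), ∫⁻ β, Ψ ((a, α), (b, β)) ∂brM ν b z y := fun α =>
      lintegral_grM ν z y (Φ := fun q => Ψ ((a, α), q)) (hΨ.comp (by fun_prop))
    simp_rw [e]
    exact lintegral_lintegral_swap (f := fun (α : Br) (b : ℝ) =>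
      ∫⁻ β, Ψ ((a, α), (b, β)) ∂brM ν b z y)
      (Measurable.aemeasurable (m1.comp (f := fun w : Br × ℝ => (((a, w.2, z) : ℝ × ℝ × ℂ), w.1))
        (by fun_prop)))
  simp_rw [R]
  have m6 : Measurable fun w : ℂ × ℝ => ∫⁻ b in Ioi (0 : ℝ),
      ∫⁻ α, ∫⁻ β, Ψ ((w.2, α), (b, β)) ∂brM ν b w.1 y ∂brM ν w.2 x w.1 :=
    Measurable.lintegral_prod_right' (f := fun w : (ℂ × ℝ) × ℝ =>
      ∫⁻ α, ∫⁻ β, Ψ ((w.1.2, α), (w.2, β)) ∂brM ν w.2 w.1.1 y ∂brM ν w.1.2 x w.1.1)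
      (m2.comp (f := fun w : (ℂ × ℝ) × ℝ => (w.1.2, w.2, w.1.1)) (by fun_prop))
  rw [lintegral_lintegral_swap (f := fun (z : ℂ) (a : ℝ) => ∫⁻ b in Ioi (0 : ℝ),
      ∫⁻ α, ∫⁻ β, Ψ ((a, α), (b, β)) ∂brM ν b z y ∂brM ν a x z) m6.aemeasurable]
  refine lintegral_congr fun a => ?_
  rw [lintegral_lintegral_swap (f := fun (z : ℂ) (b : ℝ) =>
      ∫⁻ α, ∫⁻ β, Ψ ((a, α), (b, β)) ∂brM ν b z y ∂brM ν a x z)
      (Measurable.aemeasurable (m2.comp (f := fun w : ℂ × ℝ => ((a, w.2, w.1) : ℝ × ℝ × ℂ))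
        (by fun_prop)))]

end Pool.Agent.P.MP_d66c6d_pr
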