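import Pool.Agent.P.MP_d66c6d_pr.B.Iface

/-! Step REV of the carpet project. -/

namespace Pool.Agent.P.MP_d66c6d_pr

open MeasureTheory ProbabilityTheory Set Metric Filter Topology
open scoped ENNReal

namespace RevA

variable {ν : Measure Br}

/-- the real part of the value at a time -/
noncomputable def eR (s : unitInterval) : StrongDual ℝ Br :=
  Complex.reCLM.comp (ContinuousMap.evalCLM ℝ s)

/-- the imaginary part of the value at a time -/
noncomputable def eI (s : unitInterval) : StrongDual ℝ Br :=
  Complex.imCLM.comp (ContinuousMap.evalCLM ℝ s)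

theorem int_eval (h : IsBridge ν) (s : unitInterval) : Integrable (fun b : Br => b s) ν := by
  have := h.gauss
  exact (ContinuousMap.evalCLM ℝ s : Br →L[ℝ] ℂ).integrable_comp IsGaussian.integrable_id

theorem mean_re (h : IsBridge ν) (s : unitInterval) : ∫ b, (b s).re ∂ν = 0 := by
  have := Complex.reCLM.integral_comp_comm (int_eval h s)
  rw [h.mean] at this
  simpa using this

theorem mean_im (h : IsBridge ν) (s : unitInterval) : ∫ b, (b s).im ∂ν = 0 := by
  have := Complex.imCLM.integral_comp_comm (int_eval h s)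
  rw [h.mean] at this
  simpa using this

theorem cov_im_re (h : IsBridge ν) (s t : unitInterval) : ∫ b, (b s).im * (b t).re ∂ν = 0 := by
  simpa only [mul_comm] using h.cov_re_im t s

theorem uniq (hGU : S_GU) (hBERN : S_BERN) {ν' : Measure Br} (h : IsBridge ν) (h' : IsBridge ν') :
    ν = ν' := by
  refine hGU Br ν ν' h.gauss h'.gauss _ hBERN ?_ ?_
  · rintro L ⟨s, e | e⟩ <;> simp only [e]
    · rw [mean_re h, mean_re h']
    · rw [mean_im h, mean_im h']
  · rintro L ⟨s, e | e⟩ L' ⟨t, e' | e'⟩ <;> simp only [e, e']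
    · rw [h.cov_re, h'.cov_re]
    · rw [h.cov_re_im, h'.cov_re_im]
    · rw [cov_im_re h, cov_im_re h']
    · rw [h.cov_im, h'.cov_im]

theorem zero_of (h : IsBridge ν) (L : StrongDual ℝ Br) (e : ∫ b, L b * L b ∂ν = 0) :
    ∀ᵐ b ∂ν, L b = 0 := by
  have := h.gauss
  have h1 := IsGaussian.memLp_dual ν L 2 (by simp)
  have h2 : Integrable (fun b => L b * L b) ν := h1.integrable_mul h1
  filter_upwards [(integral_eq_zero_iff_of_nonneg (fun b => mul_self_nonneg (L b)) h2).1 e]
    with b hb using mul_self_eq_zero.1 hb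

theorem ends (h : IsBridge ν) : ∀ᵐ b ∂ν, b 0 = 0 ∧ b 1 = 0 := by
  filter_upwards [zero_of h (eR 0) ((h.cov_re 0 0).trans (by simp)),
    zero_of h (eI 0) ((h.cov_im 0 0).trans (by simp)),
    zero_of h (eR 1) ((h.cov_re 1 1).trans (by simp)),
    zero_of h (eI 1) ((h.cov_im 1 1).trans (by simp))] with b h1 h2 h3 h4
  exact ⟨Complex.ext h1 h2, Complex.ext h3 h4⟩

theorem rev_apply (b : Br) (s : unitInterval) : rev b s = b (unitInterval.symm s) := by
  rw [rev, sub_apply, show (1 : ℝ) + s * (0 - 1) = unitInterval.symm s by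
    rw [unitInterval.coe_symm_eq]; ring, projIcc_val]

/-- time reversal as a linear map -/
noncomputable def revL : Br →L[ℝ] Br :=
  ContinuousMap.compCLM ℝ ℂ ⟨unitInterval.symm, unitInterval.continuous_symm⟩

theorem rev_eq : rev = revL := funext fun b => ContinuousMap.ext fun s => rev_apply b s

theorem m_rev : Measurable rev := Measurable.rev' measurable_id

theorem cov (s t : unitInterval) : min (unitInterval.symm s : ℝ) (unitInterval.symm t) -
    unitInterval.symm s * unitInterval.symm t = min (s : ℝ) t - s * t := by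
  simp only [unitInterval.coe_symm_eq]
  rcases le_total (s : ℝ) t with h | h
  · rw [min_eq_left h, min_eq_right (by linarith)]; ring
  · rw [min_eq_right h, min_eq_left (by linarith)]; ring

theorem bridge_rev (h : IsBridge ν) : IsBridge (ν.map rev) := by
  have := h.gauss
  refine ⟨by rw [rev_eq]; infer_instance, fun s => ?_, fun s t => ?_, fun s t => ?_,
    fun s t => ?_⟩ <;>
  rw [integral_map m_rev.aemeasurable (Continuous.aestronglyMeasurable (by fun_prop))] <;>
  simp only [rev_apply]
  · exact h.mean _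
  · rw [h.cov_re, cov]
  · rw [h.cov_im, cov]
  · exact h.cov_re_im _ _

theorem rev_seg (x y : ℂ) (t : ℝ) (b : Br) : rev (seg x y t b) = seg y x t (rev b) := by
  ext s
  simp only [rev_apply, seg_apply, unitInterval.coe_symm_eq]
  push_cast
  ring

theorem hk_symm (t : ℝ) (x y : ℂ) : hk t (y - x) = hk t (x - y) := by
  rw [hk, hk, norm_sub_rev]

theorem seg_ends {b : Br} (h : b 0 = 0 ∧ b 1 = 0) (x y : ℂ) (t : ℝ) :
    seg x y t b 0 = x ∧ seg x y t b 1 = y := by
  simp [seg_apply, h.1, h.2]

theorem m_ends (x y : ℂ) : MeasurableSet {γ : Br | γ 0 = x ∧ γ 1 = y} :=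
  ((isClosed_eq (by fun_prop) continuous_const).inter
    (isClosed_eq (by fun_prop) continuous_const)).measurableSet

theorem ae_prod {A B : Type} [MeasurableSpace A] [MeasurableSpace B] {μ : Measure A}
    {m : Measure B} [SFinite m] {P : A → Prop} {Q : B → Prop} (h : ∀ᵐ a ∂μ, P a)
    (h' : ∀ᵐ b ∂m, Q b) : ∀ᵐ p ∂μ.prod m, P p.1 ∧ Q p.2 :=
  (Measure.quasiMeasurePreserving_fst.ae h).and (Measure.quasiMeasurePreserving_snd.ae h')

theorem pos (f : ℝ → ℝ≥0∞) : ∀ᵐ t ∂((volume : Measure ℝ).restrict (Ioi 0)).withDensity f, 0 < t :=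
  (withDensity_absolutelyContinuous _ f).ae_le (ae_restrict_mem measurableSet_Ioi)

end RevA

open RevA in
theorem p_REV (hGU : S_GU) (hBERN : S_BERN) :
    S_REV := by
  refine ⟨fun ν ν' => uniq hGU hBERN, fun ν h => ?_⟩
  have := h.prob
  have e := uniq hGU hBERN (bridge_rev h) h
  refine ⟨ends h, e, fun t x y => ?_, fun x y => ?_, fun t x y => ?_, fun x y => ?_, fun t x => ?_,
    ?_⟩
  · rw [brM, brM, Measure.map_smul, hk_symm, Measure.map_map m_rev (by fun_prop)]
    conv_rhs => rw [← e, Measure.map_map (by fun_prop) m_rev]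
    congr 2
    exact funext fun b => rev_seg x y t b
  · rw [grM, grM, Measure.map_map (by fun_prop) (by fun_prop)]
    conv_rhs => rw [← e, ← Measure.map_id (μ := Measure.withDensity _ _),
      Measure.map_prod_map _ _ measurable_id m_rev,
      Measure.map_map (by fun_prop) (measurable_id.prodMap m_rev)]
    simp only [hk_symm _ x y]
    congr 1
    exact funext fun p => Prod.ext rfl (rev_seg x y p.1 p.2)
  · refine Measure.ae_smul_measure ((ae_map_iff (by fun_prop) (m_ends x y)).2 ?_) _
    filter_upwards [ends h] with b hb using seg_ends hb x y t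
  · refine (ae_map_iff (by fun_prop) ((measurableSet_lt measurable_const measurable_fst).inter
      (measurable_snd (m_ends x y)))).2 ?_
    filter_upwards [ae_prod (pos _) (ends h)] with p hp using ⟨hp.1, seg_ends hp.2 x y p.1⟩
  · refine (ae_map_iff (by fun_prop) (isClosed_eq (by fun_prop) continuous_const).measurableSet).2 ?_
    filter_upwards [Measure.quasiMeasurePreserving_snd.ae (ends h)] with p hp
      using (seg_ends hp x _ t).1
  · filter_upwards [Measure.quasiMeasurePreserving_snd.ae (ae_prod (pos _) (ends h))] with l hl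
      using ⟨hl.1, seg_ends hl.2 _ _ _⟩

end Pool.Agent.P.MP_d66c6d_pr
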