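import Pool.Agent.P.MP_d66c6d_pr.B.Iface

/-! Step SHIFT of the carpet project. -/

namespace Pool.Agent.P.MP_d66c6d_pr

open MeasureTheory ProbabilityTheory Set Metric Filter Topology
open scoped ENNReal

theorem p_SHIFT (hSPLIT : S_SPLIT) (hCUT : S_CUT) :
    S_SHIFT := by
  intro ν hν t ht s hs
  have := hν.prob
  have hs' : 1 - s ∈ Ioo (0 : ℝ) 1 := ⟨by linarith [hs.2], by linarith [hs.1]⟩
  have key : ∀ Ψ : Br × Br → ℝ≥0∞, Measurable Ψ →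
      ∫⁻ x, ∫⁻ γ, Ψ (sub 0 s γ, sub s 1 γ) ∂brM ν t x x =
        ∫⁻ x, ∫⁻ γ, Ψ (sub (1 - s) 1 γ, sub 0 (1 - s) γ) ∂brM ν t x x := fun Ψ hΨ => by
    have h1 : ∀ x, ∫⁻ γ, Ψ (sub (1 - s) 1 γ, sub 0 (1 - s) γ) ∂brM ν t x x =
        ∫⁻ z, ∫⁻ α, ∫⁻ β, Ψ (α, β) ∂brM ν ((1 - s) * t) x z ∂brM ν (s * t) z x := fun x => by
      have h2 := hSPLIT ν hν t ht _ hs' x x (fun p => Ψ p.swap) (hΨ.comp measurable_swap)
      rw [sub_sub_cancel] at h2
      refine h2.trans (lintegral_congr fun z => ?_)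
      exact lintegral_lintegral_swap (f := fun β α => Ψ (α, β))
        (hΨ.comp measurable_swap).aemeasurable
    have h4 : Measurable fun q : (ℂ × ℂ) × Br =>
        ∫⁻ β, Ψ (q.2, β) ∂brM ν ((1 - s) * t) q.1.2 q.1.1 :=
      measurable_brM ν (t := fun _ => (1 - s) * t) (x := fun q : (ℂ × ℂ) × Br => q.1.2)
        (y := fun q => q.1.1) (F := fun q β => Ψ (q.2, β)) (by fun_prop) (by fun_prop)
        (by fun_prop) (by fun_prop)
    have h3 : Measurable fun p : ℂ × ℂ =>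
        ∫⁻ α, ∫⁻ β, Ψ (α, β) ∂brM ν ((1 - s) * t) p.2 p.1 ∂brM ν (s * t) p.1 p.2 :=
      measurable_brM ν (t := fun _ => s * t) (x := fun p : ℂ × ℂ => p.1) (y := fun p => p.2)
        (F := fun p α => ∫⁻ β, Ψ (α, β) ∂brM ν ((1 - s) * t) p.2 p.1) (by fun_prop) (by fun_prop)
        (by fun_prop) h4
    simp_rw [h1, fun x => hSPLIT ν hν t ht s hs x x Ψ hΨ]
    exact lintegral_lintegral_swap h3.aemeasurable
  refine ⟨key, fun F hF => ?_⟩
  refine (key (fun p => F (cat (1 - s) p.2 p.1)) (by fun_prop)).trans ?_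
  simp_rw [hCUT.2.2.2.2.2.2.2.1 _ hs']

end Pool.Agent.P.MP_d66c6d_pr
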