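import Pool.Agent.P.MP_d66c6d_pr.B.Iface

/-! Step SPLIT of the carpet project. -/

namespace Pool.Agent.P.MP_d66c6d_pr

open MeasureTheory ProbabilityTheory Set Metric Filter Topology
open scoped ENNReal

namespace SplitA

theorem sub_left {s t : ℝ} (hs : s ∈ Ioo (0 : ℝ) 1) (x y : ℂ) (b : Br) :
    sub 0 s (seg x y t b) =
      seg x (x + (s : ℂ) * (y - x) + (√t : ℂ) * sub 0 s b 1) (s * t) (brL s b) := by
  ext u
  have hu : (0 : ℝ) + (u : ℝ) * (s - 0) ∈ Icc (0 : ℝ) 1 := by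
    have h0 := u.2.1
    have h1 := u.2.2
    have h2 := hs.1
    have h3 := hs.2
    constructor <;> nlinarith
  have hv : ((projIcc 0 1 zero_le_one ((0 : ℝ) + (u : ℝ) * (s - 0)) : unitInterval) : ℝ) =
      (u : ℝ) * s := by
    rw [projIcc_of_mem _ hu]
    simp
  have hq : ((√s : ℝ) : ℂ) ≠ 0 := by
    exact_mod_cast (Real.sqrt_pos.2 hs.1).ne'
  rw [sub_apply, seg_apply, seg_apply, hv, ← sub_apply, brL, ContinuousMap.smul_apply,
    ContinuousMap.sub_apply, seg_apply, Real.sqrt_mul hs.1.le, Complex.real_smul]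
  push_cast
  simp only [Real.sqrt_zero, Complex.ofReal_zero, zero_mul, add_zero, zero_add, sub_zero]
  field_simp
  ring

theorem sub_right {s t : ℝ} (hs : s ∈ Ioo (0 : ℝ) 1) (x y : ℂ) (b : Br) :
    sub s 1 (seg x y t b) =
      seg (x + (s : ℂ) * (y - x) + (√t : ℂ) * sub 0 s b 1) y ((1 - s) * t) (brR s b) := by
  ext u
  have hu : s + (u : ℝ) * (1 - s) ∈ Icc (0 : ℝ) 1 := by
    have h0 := u.2.1
    have h1 := u.2.2
    have h2 := hs.1
    have h3 := hs.2
    constructor <;> nlinarith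
  have hv : ((projIcc 0 1 zero_le_one (s + (u : ℝ) * (1 - s)) : unitInterval) : ℝ) =
      s + (u : ℝ) * (1 - s) := by
    rw [projIcc_of_mem _ hu]
  have h1s : 0 < 1 - s := by linarith [hs.2]
  have hq : ((√(1 - s) : ℝ) : ℂ) ≠ 0 := by
    exact_mod_cast (Real.sqrt_pos.2 h1s).ne'
  rw [sub_apply, seg_apply, seg_apply, hv, ← sub_apply, brR, ContinuousMap.smul_apply,
    ContinuousMap.sub_apply, seg_apply, Real.sqrt_mul h1s.le, Complex.real_smul]
  push_cast
  simp only [Real.sqrt_zero, Complex.ofReal_zero, zero_mul, add_zero, zero_sub]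
  field_simp
  ring

theorem chg {t : ℝ} (ht : 0 < t) (a : ℂ) {H : ℂ → ℝ≥0∞} (hH : Measurable H) :
    ∫⁻ z, H z = ∫⁻ w, ENNReal.ofReal t * H (a + (√t : ℂ) * w) := by
  have hq : (√t : ℝ) ≠ 0 := (Real.sqrt_pos.2 ht).ne'
  have h1 : ∫⁻ z, H z = ∫⁻ z, H (a + z) := (lintegral_add_left_eq_self H a).symm
  have h2 := Measure.map_addHaar_smul (volume : Measure ℂ) hq
  have h3 : ∫⁻ w, H (a + (√t : ℂ) * w) =
      ∫⁻ z, H (a + z) ∂(Measure.map (fun w : ℂ => (√t : ℝ) • w) volume) := by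
    rw [lintegral_map (by fun_prop) (by fun_prop)]
    simp only [Complex.real_smul]
  rw [lintegral_const_mul _ (by fun_prop), h3, h2, lintegral_smul_measure, h1,
    Complex.finrank_real_complex, Real.sq_sqrt ht.le, abs_of_pos (inv_pos.2 ht), smul_eq_mul,
    ← mul_assoc, ← ENNReal.ofReal_mul ht.le, mul_inv_cancel₀ ht.ne', ENNReal.ofReal_one, one_mul]

theorem kern {s t : ℝ} (hs : s ∈ Ioo (0 : ℝ) 1) (ht : 0 < t) (d w : ℂ) :
    hk t d * hk (s * (1 - s)) w =
      ENNReal.ofReal t * (hk (s * t) ((s : ℂ) * d + (√t : ℂ) * w) *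
        hk ((1 - s) * t) (d - ((s : ℂ) * d + (√t : ℂ) * w))) := by
  have h1s : 0 < 1 - s := by linarith [hs.2]
  have hs0 := hs.1
  have hpi := Real.pi_pos
  unfold hk
  rw [← ENNReal.ofReal_mul (by positivity), ← ENNReal.ofReal_mul (by positivity),
    ← ENNReal.ofReal_mul ht.le]
  congr 1
  have hr : √t * √t = t := Real.mul_self_sqrt ht.le
  have e : -‖d‖ ^ 2 / (2 * t) + -‖w‖ ^ 2 / (2 * (s * (1 - s))) =
      -‖(s : ℂ) * d + (√t : ℂ) * w‖ ^ 2 / (2 * (s * t)) +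
        -‖d - ((s : ℂ) * d + (√t : ℂ) * w)‖ ^ 2 / (2 * ((1 - s) * t)) := by
    simp only [Complex.sq_norm, Complex.normSq_apply, Complex.add_re, Complex.add_im,
      Complex.sub_re, Complex.sub_im, Complex.re_ofReal_mul, Complex.im_ofReal_mul]
    generalize √t = r at hr
    subst hr
    have hr0 : r ≠ 0 := by
      rintro rfl
      simp at ht
    field_simp
    ring
  rw [div_mul_div_comm, div_mul_div_comm, ← Real.exp_add, ← Real.exp_add, e]
  field_simp

end SplitA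

open SplitA in
theorem p_SPLIT (hTRI : S_TRI) :
    S_SPLIT := by
  intro ν hν t ht s hs x y Ψ hΨ
  have := hν.prob
  set G : ℂ → ℝ≥0∞ := fun z =>
    ∫⁻ α, ∫⁻ β, Ψ (seg x z (s * t) α, seg z y ((1 - s) * t) β) ∂ν ∂ν with hG
  have hin : Measurable fun p : ℂ × Br =>
      ∫⁻ β, Ψ (seg x p.1 (s * t) p.2, seg p.1 y ((1 - s) * t) β) ∂ν :=
    Measurable.lintegral_prod_right'
      (f := fun q : (ℂ × Br) × Br =>
        Ψ (seg x q.1.1 (s * t) q.1.2, seg q.1.1 y ((1 - s) * t) q.2)) (by fun_prop)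
  have hGm : Measurable G := hin.lintegral_prod_right'
  have hR : ∀ z, ∫⁻ α, ∫⁻ β, Ψ (α, β) ∂brM ν ((1 - s) * t) z y ∂brM ν (s * t) x z =
      hk (s * t) (z - x) * hk ((1 - s) * t) (y - z) * G z := by
    intro z
    have hm : Measurable fun α : Br => ∫⁻ β, Ψ (α, β) ∂brM ν ((1 - s) * t) z y :=
      Measurable.lintegral_prod_right' (f := Ψ) hΨ
    rw [lintegral_brM ν _ _ _ hm, mul_assoc]
    congr 1
    have h1 : ∀ α : Br, ∫⁻ β, Ψ (seg x z (s * t) α, β) ∂brM ν ((1 - s) * t) z y =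
        hk ((1 - s) * t) (y - z) *
          ∫⁻ β, Ψ (seg x z (s * t) α, seg z y ((1 - s) * t) β) ∂ν := fun α =>
      lintegral_brM ν _ _ _ (F := fun β => Ψ (seg x z (s * t) α, β)) (by fun_prop)
    simp_rw [h1]
    rw [lintegral_const_mul' _ _ (hk_ne_top _ _)]
  simp_rw [hR]
  set a : ℂ := x + (s : ℂ) * (y - x) with ha
  set Φ : ℂ × Br × Br → ℝ≥0∞ := fun p =>
    Ψ (seg x (a + (√t : ℂ) * p.1) (s * t) p.2.1, seg (a + (√t : ℂ) * p.1) y ((1 - s) * t) p.2.2)
    with hΦ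
  have hΦm : Measurable Φ := by
    rw [hΦ]
    fun_prop
  have hT : Measurable fun b : Br => (sub 0 s b 1, brL s b, brR s b) := by
    unfold brL brR
    fun_prop
  have hL : ∫⁻ b, Ψ (sub 0 s (seg x y t b), sub s 1 (seg x y t b)) ∂ν =
      ∫⁻ w, hk (s * (1 - s)) w * G (a + (√t : ℂ) * w) := by
    have h1 : ∀ b : Br, Ψ (sub 0 s (seg x y t b), sub s 1 (seg x y t b)) =
        Φ (sub 0 s b 1, brL s b, brR s b) := by
      intro b
      rw [sub_left hs, sub_right hs]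
    simp_rw [h1]
    rw [← lintegral_map hΦm hT, hTRI ν hν s hs]
    have hsf : SFinite (gm (s * (1 - s))) := by
      unfold gm
      infer_instance
    rw [lintegral_prod _ hΦm.aemeasurable, gm,
      lintegral_withDensity_eq_lintegral_mul _ (by fun_prop) hΦm.lintegral_prod_right']
    refine lintegral_congr fun w => ?_
    rw [Pi.mul_apply, lintegral_prod _ (by fun_prop)]
  rw [lintegral_brM ν t x y (F := fun γ => Ψ (sub 0 s γ, sub s 1 γ)) (by fun_prop), hL,
    chg ht a (H := fun z => hk (s * t) (z - x) * hk ((1 - s) * t) (y - z) * G z) (by fun_prop),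
    ← lintegral_const_mul' _ _ (hk_ne_top _ _)]
  refine lintegral_congr fun w => ?_
  rw [← mul_assoc, kern hs ht, ← mul_assoc (ENNReal.ofReal t) _ (G _)]
  have e1 : a + (√t : ℂ) * w - x = (s : ℂ) * (y - x) + (√t : ℂ) * w := by
    rw [ha]
    ring
  have e2 : y - (a + (√t : ℂ) * w) = y - x - ((s : ℂ) * (y - x) + (√t : ℂ) * w) := by
    rw [ha]
    ring
  rw [e1, e2]

end Pool.Agent.P.MP_d66c6d_pr
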