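import Pool.Agent.P.MP_d66c6d_pr.B.Iface

/-! Step TRI of the carpet project. -/

namespace Pool.Agent.P.MP_d66c6d_pr

open MeasureTheory ProbabilityTheory Set Metric Filter Topology
open scoped ENNReal

namespace TriA

/-- Real or imaginary part. -/
noncomputable def pt : Bool → (ℂ →L[ℝ] ℝ)
  | true => Complex.reCLM
  | false => Complex.imCLM

/-- A coordinate of the path at a given time. -/
noncomputable def ev (e : Bool) (a : unitInterval) : StrongDual ℝ Br :=
  (pt e).comp (ContinuousMap.evalCLM ℝ a)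

theorem ev_apply (e : Bool) (a : unitInterval) (b : Br) : ev e a b = pt e (b a) := rfl

/-- The covariance kernel of the bridge. -/
noncomputable def kk (a a' : ℝ) : ℝ := min a a' - a * a'

theorem mean_ev {ν : Measure Br} (hν : IsBridge ν) (e : Bool) (a : unitInterval) :
    ∫ b, ev e a b ∂ν = 0 := by
  have := hν.gauss
  have hi : Integrable (fun b : Br => b a) ν :=
    (ContinuousMap.evalCLM ℝ a : Br →L[ℝ] ℂ).integrable_comp IsGaussian.integrable_fun_id
  have := (pt e).integral_comp_comm hi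
  rw [hν.mean, map_zero] at this
  exact this

theorem cov_ev {ν : Measure Br} (hν : IsBridge ν) (e e' : Bool) (a a' : unitInterval) :
    ∫ b, ev e a b * ev e' a' b ∂ν = if e = e' then kk a a' else 0 := by
  cases e <;> cases e'
  · exact hν.cov_im a a'
  · rw [if_neg (by simp), ← hν.cov_re_im a' a]
    exact integral_congr_ae (ae_of_all _ fun b => mul_comm _ _)
  · exact hν.cov_re_im a a'
  · exact hν.cov_re a a'

theorem int_mul {E : Type} [NormedAddCommGroup E] [NormedSpace ℝ E] [MeasurableSpace E]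
    [BorelSpace E] (μ : Measure E) [IsGaussian μ] (L L' : StrongDual ℝ E) :
    Integrable (fun x => L x * L' x) μ :=
  (IsGaussian.memLp_dual μ L 2 (by simp)).integrable_mul (IsGaussian.memLp_dual μ L' 2 (by simp))

theorem cov_comb {ν : Measure Br} (hν : IsBridge ν) (e e' : Bool) (a a' σ : unitInterval)
    (c d c' d' : ℝ) :
    ∫ b, (c * ev e a b + d * ev e σ b) * (c' * ev e' a' b + d' * ev e' σ b) ∂ν =
      if e = e' then c * c' * kk a a' + c * d' * kk a σ + d * c' * kk σ a' + d * d' * kk σ σ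
      else 0 := by
  have := hν.gauss
  have h : ∀ b, (c * ev e a b + d * ev e σ b) * (c' * ev e' a' b + d' * ev e' σ b) =
      c * c' * (ev e a b * ev e' a' b) + c * d' * (ev e a b * ev e' σ b) +
        d * c' * (ev e σ b * ev e' a' b) + d * d' * (ev e σ b * ev e' σ b) := fun b => by ring
  simp_rw [h]
  have i1 := (int_mul ν (ev e a) (ev e' a')).const_mul (c * c')
  have i2 := (int_mul ν (ev e a) (ev e' σ)).const_mul (c * d')
  have i3 := (int_mul ν (ev e σ) (ev e' a')).const_mul (d * c')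
  have i4 := (int_mul ν (ev e σ) (ev e' σ)).const_mul (d * d')
  rw [integral_add (by exact (i1.add i2).add i3) i4, integral_add (by exact i1.add i2) i3,
    integral_add i1 i2, integral_const_mul, integral_const_mul, integral_const_mul, integral_const_mul,
    cov_ev hν, cov_ev hν, cov_ev hν, cov_ev hν]
  split_ifs <;> simp

/-- The splitting map as a continuous linear map. -/
noncomputable def T (s : ℝ) : Br →L[ℝ] ℂ × Br × Br where
  toFun b := (sub 0 s b 1, brL s b, brR s b)
  map_add' b b' := by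
    refine Prod.ext rfl (Prod.ext ?_ ?_) <;> ext u <;>
      simp [brL, brR, sub_apply, seg_apply] <;> ring
  map_smul' r b := by
    refine Prod.ext rfl (Prod.ext ?_ ?_) <;> ext u <;>
      simp [brL, brR, sub_apply, seg_apply] <;> ring
  cont := by
    have h0 : ∀ u v : ℝ, Continuous fun b : Br => sub u v b := fun u v =>
      continuous_sub.comp (continuous_const.prodMk (continuous_const.prodMk continuous_id))
    have h1 : Continuous fun b : Br => sub 0 s b 1 := (continuous_eval_const _).comp (h0 0 s)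
    refine h1.prodMk (Continuous.prodMk ?_ ?_)
    · have h2 : Continuous fun b : Br => seg 0 (sub 0 s b 1) 0 0 :=
        continuous_seg.comp (f := fun b : Br => ((0 : ℂ), sub 0 s b 1, (0 : ℝ), (0 : Br)))
          (continuous_const.prodMk (h1.prodMk continuous_const))
      exact ((h0 0 s).sub h2).const_smul (√s)⁻¹
    · have h2 : Continuous fun b : Br => seg (sub 0 s b 1) 0 0 0 :=
        continuous_seg.comp (f := fun b : Br => (sub 0 s b 1, (0 : ℂ), (0 : ℝ), (0 : Br)))
          (h1.prodMk continuous_const)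
      exact ((h0 s 1).sub h2).const_smul (√(1 - s))⁻¹

/-- The three families of coordinate functionals. -/
noncomputable def G : Fin 3 → Bool → unitInterval → StrongDual ℝ (ℂ × Br × Br)
  | 0, e, _ => (pt e).comp (ContinuousLinearMap.fst ℝ _ _)
  | 1, e, u => (ev e u).comp ((ContinuousLinearMap.fst ℝ _ _).comp (ContinuousLinearMap.snd ℝ _ _))
  | 2, e, u => (ev e u).comp ((ContinuousLinearMap.snd ℝ _ _).comp (ContinuousLinearMap.snd ℝ _ _))

theorem G0 (e u) (p : ℂ × Br × Br) : G 0 e u p = pt e p.1 := rfl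
theorem G1 (e u) (p : ℂ × Br × Br) : G 1 e u p = ev e u p.2.1 := rfl
theorem G2 (e u) (p : ℂ × Br × Br) : G 2 e u p = ev e u p.2.2 := rfl

theorem total (hBERN : S_BERN) (L : StrongDual ℝ (ℂ × Br × Br)) :
    ∃ u : ℕ → StrongDual ℝ (ℂ × Br × Br),
      (∀ n, u n ∈ Submodule.span ℝ {M | ∃ i e a, M = G i e a}) ∧
      ∀ x, Tendsto (fun n => u n x) atTop (𝓝 (L x)) := by
  obtain ⟨u1, h1, t1⟩ := hBERN (L.comp ((ContinuousLinearMap.inr ℝ ℂ (Br × Br)).comp
    (ContinuousLinearMap.inl ℝ Br Br)))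
  obtain ⟨u2, h2, t2⟩ := hBERN (L.comp ((ContinuousLinearMap.inr ℝ ℂ (Br × Br)).comp
    (ContinuousLinearMap.inr ℝ Br Br)))
  have key : ∀ (P : ℂ × Br × Br →L[ℝ] Br) (i : Fin 3), (∀ e a, G i e a = (ev e a).comp P) →
      ∀ M ∈ Submodule.span ℝ {M : StrongDual ℝ Br | ∃ s : unitInterval,
        (∀ b, M b = (b s).re) ∨ (∀ b, M b = (b s).im)},
      M.comp P ∈ Submodule.span ℝ {M | ∃ i e a, M = G i e a} := by
    intro P i hP M hM
    induction hM using Submodule.span_induction with
    | mem M hM =>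
      obtain ⟨a, h | h⟩ := hM
      · refine Submodule.subset_span ⟨i, true, a, ?_⟩
        rw [hP]
        exact ContinuousLinearMap.ext fun p => h _
      · refine Submodule.subset_span ⟨i, false, a, ?_⟩
        rw [hP]
        exact ContinuousLinearMap.ext fun p => h _
    | zero => rw [ContinuousLinearMap.zero_comp]; exact Submodule.zero_mem _
    | add M M' _ _ hM hM' => rw [ContinuousLinearMap.add_comp]; exact Submodule.add_mem _ hM hM'
    | smul r M _ hM => rw [ContinuousLinearMap.smul_comp]; exact Submodule.smul_mem _ r hM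
  refine ⟨fun n => L (1, 0, 0) • G 0 true 0 + L (Complex.I, 0, 0) • G 0 false 0 +
    (u1 n).comp ((ContinuousLinearMap.fst ℝ _ _).comp (ContinuousLinearMap.snd ℝ _ _)) +
    (u2 n).comp ((ContinuousLinearMap.snd ℝ _ _).comp (ContinuousLinearMap.snd ℝ _ _)),
    fun n => ?_, fun x => ?_⟩
  · refine Submodule.add_mem _ (Submodule.add_mem _ (Submodule.add_mem _ ?_ ?_) ?_) ?_
    · exact Submodule.smul_mem _ _ (Submodule.subset_span ⟨0, true, 0, rfl⟩)
    · exact Submodule.smul_mem _ _ (Submodule.subset_span ⟨0, false, 0, rfl⟩)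
    · exact key _ 1 (fun _ _ => rfl) _ (h1 n)
    · exact key _ 2 (fun _ _ => rfl) _ (h2 n)
  · have hx : L x = L (1, 0, 0) * x.1.re + L (Complex.I, 0, 0) * x.1.im + L (0, x.2.1, 0) +
        L (0, 0, x.2.2) := by
      have : x = x.1.re • ((1 : ℂ), (0 : Br), (0 : Br)) + x.1.im • (Complex.I, 0, 0) +
          (0, x.2.1, 0) + (0, 0, x.2.2) := by
        refine Prod.ext ?_ (Prod.ext ?_ ?_)
        · simp
        · ext u
          simp
        · ext u
          simp
      conv_lhs => rw [this]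
      rw [map_add, map_add, map_add, map_smul, map_smul, smul_eq_mul, smul_eq_mul, mul_comm x.1.re,
        mul_comm x.1.im]
    rw [hx]
    exact (tendsto_const_nhds.add (t1 x.2.1)).add (t2 x.2.2)

/-- First coefficient of the pull-back. -/
noncomputable def c1 (s : ℝ) : Fin 3 → ℝ
  | 0 => 0
  | 1 => (√s)⁻¹
  | 2 => (√(1 - s))⁻¹

/-- Second coefficient of the pull-back. -/
noncomputable def c2 (s : ℝ) : Fin 3 → ℝ → ℝ
  | 0, _ => 1
  | 1, u => -((√s)⁻¹ * u)
  | 2, u => -((√(1 - s))⁻¹ * (1 - u))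

/-- The time of the pull-back. -/
noncomputable def tm (s : ℝ) : Fin 3 → ℝ → ℝ
  | 0, _ => s
  | 1, u => u * s
  | 2, u => s + u * (1 - s)

theorem tm_mem {s : ℝ} (hs : s ∈ Ioo (0 : ℝ) 1) (i : Fin 3) (u : unitInterval) :
    tm s i u ∈ Icc (0 : ℝ) 1 := by
  have h0 := u.2.1
  have h1 := u.2.2
  have := hs.1
  have := hs.2
  fin_cases i <;> simp only [tm, mem_Icc] <;> constructor <;> nlinarith

theorem pull {s : ℝ} (hs : s ∈ Ioo (0 : ℝ) 1) (i : Fin 3) (e : Bool) (u : unitInterval) (b : Br) :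
    G i e u (T s b) = c1 s i * ev e ⟨tm s i u, tm_mem hs i u⟩ b +
      c2 s i u * ev e ⟨s, Ioo_subset_Icc_self hs⟩ b := by
  have e0 : sub 0 s b 1 = b ⟨s, Ioo_subset_Icc_self hs⟩ := by
    rw [sub_apply, ← projIcc_of_mem zero_le_one (Ioo_subset_Icc_self hs)]
    congr 2
    simp
  have e1 : sub 0 s b u = b ⟨tm s 1 u, tm_mem hs 1 u⟩ := by
    rw [sub_apply, ← projIcc_of_mem zero_le_one (tm_mem hs 1 u)]
    congr 2
    simp [tm]
  have e2 : sub s 1 b u = b ⟨tm s 2 u, tm_mem hs 2 u⟩ := by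
    rw [sub_apply, ← projIcc_of_mem zero_le_one (tm_mem hs 2 u)]
    rfl
  fin_cases i
  · change pt e (sub 0 s b 1) = 0 * _ + 1 * pt e (b _)
    rw [e0]
    ring
  · change pt e (brL s b u) = (√s)⁻¹ * pt e (b ⟨tm s 1 u, _⟩) + -((√s)⁻¹ * u) * pt e (b _)
    have : brL s b u = (√s)⁻¹ • (b ⟨tm s 1 u, tm_mem hs 1 u⟩ -
        (u : ℝ) • b ⟨s, Ioo_subset_Icc_self hs⟩) := by
      rw [← e0, ← e1]
      simp [brL, seg_apply]
    rw [this, map_smul, map_sub, map_smul, smul_eq_mul, smul_eq_mul]
    ring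
  · change pt e (brR s b u) = (√(1 - s))⁻¹ * pt e (b ⟨tm s 2 u, _⟩) +
      -((√(1 - s))⁻¹ * (1 - u)) * pt e (b _)
    have : brR s b u = (√(1 - s))⁻¹ • (b ⟨tm s 2 u, tm_mem hs 2 u⟩ -
        (1 - u : ℝ) • b ⟨s, Ioo_subset_Icc_self hs⟩) := by
      rw [← e0, ← e2]
      simp [brR, seg_apply]
      left
      ring
    rw [this, map_smul, map_sub, map_smul, smul_eq_mul, smul_eq_mul]
    ring

/-- The covariance of the product measure. -/
noncomputable def KK (s : ℝ) (i j : Fin 3) (u v : ℝ) : ℝ :=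
  if i = j then (if i = 0 then s * (1 - s) else kk u v) else 0

theorem alg {s : ℝ} (hs : s ∈ Ioo (0 : ℝ) 1) (i j : Fin 3) (u v : unitInterval) :
    c1 s i * c1 s j * kk (tm s i u) (tm s j v) + c1 s i * c2 s j v * kk (tm s i u) s +
      c2 s i u * c1 s j * kk s (tm s j v) + c2 s i u * c2 s j v * kk s s = KK s i j u v := by
  have hu0 := u.2.1
  have hu1 := u.2.2
  have hv0 := v.2.1
  have hv1 := v.2.2
  have s0 := hs.1
  have s1 : 0 < 1 - s := sub_pos.2 hs.2
  have q1 : (√s)⁻¹ * (√s)⁻¹ * s = 1 := by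
    rw [← mul_inv, Real.mul_self_sqrt s0.le, inv_mul_cancel₀ s0.ne']
  have q2 : (√(1 - s))⁻¹ * (√(1 - s))⁻¹ * (1 - s) = 1 := by
    rw [← mul_inv, Real.mul_self_sqrt s1.le, inv_mul_cancel₀ s1.ne']
  generalize (u : ℝ) = x at *
  generalize (v : ℝ) = y at *
  have a1 : x * s ≤ s := by nlinarith
  have a2 : y * s ≤ s := by nlinarith
  have a3 : s ≤ s + x * (1 - s) := by nlinarith
  have a4 : s ≤ s + y * (1 - s) := by nlinarith
  have m1 : min (x * s) (y * s) = min x y * s := (min_mul_of_nonneg _ _ s0.le).symm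
  have m2 : min (s + x * (1 - s)) (s + y * (1 - s)) = s + min x y * (1 - s) := by
    rw [min_add_add_left, min_mul_of_nonneg _ _ s1.le]
  fin_cases i <;> fin_cases j <;>
    simp only [c1, c2, tm, kk, KK, min_self, m1, m2, min_eq_left a1, min_eq_right a2,
      min_eq_right a3, min_eq_left a4, min_eq_left (a1.trans a4), min_eq_right (a2.trans a3),
      Fin.zero_eta, Fin.mk_one, Fin.reduceFinMk, Fin.reduceEq, if_true, if_false]
  · ring
  · ring
  · ring
  · ring
  · linear_combination (min x y - x * y) * q1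
  · ring
  · ring
  · ring
  · linear_combination (min x y - x * y) * q2

theorem gm_mean (hGM : S_GM) {t : ℝ} (ht : 0 < t) (e : Bool) : ∫ z, pt e z ∂gm t = 0 := by
  cases e
  · exact (hGM t ht).2.2.2.1
  · exact (hGM t ht).2.2.1

theorem gm_cov (hGM : S_GM) {t : ℝ} (ht : 0 < t) (e e' : Bool) :
    ∫ z, pt e z * pt e' z ∂gm t = if e = e' then t else 0 := by
  cases e <;> cases e'
  · exact (hGM t ht).2.2.2.2.2.1
  · rw [if_neg (by simp), ← (hGM t ht).2.2.2.2.2.2.1]
    exact integral_congr_ae (ae_of_all _ fun b => mul_comm _ _)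
  · exact (hGM t ht).2.2.2.2.2.2.1
  · exact (hGM t ht).2.2.2.2.1

theorem int3 (μ : Measure ℂ) (ν : Measure Br) [SFinite μ] [SFinite ν] (f : ℂ → ℝ) (g h : Br → ℝ) :
    ∫ p : ℂ × Br × Br, f p.1 * (g p.2.1 * h p.2.2) ∂μ.prod (ν.prod ν) =
      (∫ z, f z ∂μ) * ((∫ b, g b ∂ν) * ∫ b, h b ∂ν) := by
  rw [← integral_prod_mul g h]
  exact integral_prod_mul f fun q : Br × Br => g q.1 * h q.2

theorem prod_mean (hGM : S_GM) {ν : Measure Br} (hν : IsBridge ν) {t : ℝ} (ht : 0 < t) (i : Fin 3)
    (e : Bool) (u : unitInterval) : ∫ p, G i e u p ∂(gm t).prod (ν.prod ν) = 0 := by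
  have := hν.gauss
  have := (hGM t ht).1
  fin_cases i
  · have h := int3 (gm t) ν (pt e) (fun _ => 1) (fun _ => 1)
    simp only [mul_one, gm_mean hGM ht, zero_mul] at h
    exact h
  · have h := int3 (gm t) ν (fun _ => 1) (ev e u) (fun _ => 1)
    simp only [mul_one, one_mul, mean_ev hν, zero_mul, mul_zero] at h
    exact h
  · have h := int3 (gm t) ν (fun _ => 1) (fun _ => 1) (ev e u)
    simp only [one_mul, mean_ev hν, mul_zero] at h
    exact h

theorem prod_cov (hGM : S_GM) {ν : Measure Br} (hν : IsBridge ν) {s : ℝ} (hs : s ∈ Ioo (0 : ℝ) 1)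
    (i j : Fin 3) (e e' : Bool) (u v : unitInterval) :
    ∫ p, G i e u p * G j e' v p ∂(gm (s * (1 - s))).prod (ν.prod ν) =
      if e = e' then KK s i j u v else 0 := by
  have ht : 0 < s * (1 - s) := mul_pos hs.1 (sub_pos.2 hs.2)
  have := hν.gauss
  have := (hGM _ ht).1
  have one1 : ∫ _ : Br, (1 : ℝ) ∂ν = 1 := by simp
  have one2 : ∫ _ : ℂ, (1 : ℝ) ∂gm (s * (1 - s)) = 1 := by simp
  fin_cases i <;> fin_cases j <;>
    simp only [KK, G0, G1, G2, Fin.zero_eta, Fin.mk_one, Fin.reduceFinMk, Fin.reduceEq, if_true,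
      if_false, ite_self]
  · have h := int3 (gm (s * (1 - s))) ν (fun z => pt e z * pt e' z) (fun _ => 1) (fun _ => 1)
    simpa only [mul_one, one1, gm_cov hGM ht] using h
  · have h := int3 (gm (s * (1 - s))) ν (pt e) (ev e' v) (fun _ => 1)
    simpa only [mul_one, gm_mean hGM ht, zero_mul] using h
  · have h := int3 (gm (s * (1 - s))) ν (pt e) (fun _ => 1) (ev e' v)
    simpa only [one_mul, gm_mean hGM ht, zero_mul] using h
  · have h := int3 (gm (s * (1 - s))) ν (pt e') (ev e u) (fun _ => 1)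
    simp only [mul_one, gm_mean hGM ht, zero_mul] at h
    simpa only [mul_comm] using h
  · have h := int3 (gm (s * (1 - s))) ν (fun _ => 1) (fun b => ev e u b * ev e' v b) (fun _ => 1)
    simpa only [mul_one, one_mul, one1, one2, cov_ev hν] using h
  · have h := int3 (gm (s * (1 - s))) ν (fun _ => 1) (ev e u) (ev e' v)
    simpa only [one_mul, mean_ev hν, mul_zero] using h
  · have h := int3 (gm (s * (1 - s))) ν (pt e') (fun _ => 1) (ev e u)
    simp only [one_mul, gm_mean hGM ht, zero_mul] at h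
    simpa only [mul_comm] using h
  · have h := int3 (gm (s * (1 - s))) ν (fun _ => 1) (ev e' v) (ev e u)
    simp only [one_mul, mean_ev hν, mul_zero] at h
    simpa only [mul_comm] using h
  · have h := int3 (gm (s * (1 - s))) ν (fun _ => 1) (fun _ => 1) (fun b => ev e u b * ev e' v b)
    simpa only [mul_one, one_mul, one1, one2, cov_ev hν] using h

end TriA

open TriA in
theorem p_TRI (hGU : S_GU) (hBERN : S_BERN) (hGM : S_GM) :
    S_TRI := by
  intro ν hν s hs
  have ht : 0 < s * (1 - s) := mul_pos hs.1 (sub_pos.2 hs.2)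
  have := hν.gauss
  have := (hGM _ ht).1
  have hT : Measurable (T s) := (T s).continuous.measurable
  change ν.map (T s) = _
  refine hGU (ℂ × Br × Br) _ _ inferInstance inferInstance {M | ∃ i e a, M = G i e a}
    (total hBERN) ?_ ?_
  · rintro _ ⟨i, e, a, rfl⟩
    rw [prod_mean hGM hν ht, integral_map hT.aemeasurable (G i e a).continuous.aestronglyMeasurable]
    simp_rw [pull hs]
    rw [integral_add ((IsGaussian.integrable_dual ν _).const_mul _)
      ((IsGaussian.integrable_dual ν _).const_mul _), integral_const_mul, integral_const_mul,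
      mean_ev hν, mean_ev hν]
    simp
  · rintro _ ⟨i, e, a, rfl⟩ _ ⟨j, e', a', rfl⟩
    rw [prod_cov hGM hν hs, integral_map hT.aemeasurable
      (by exact ((G i e a).continuous.mul (G j e' a').continuous).aestronglyMeasurable)]
    simp_rw [pull hs]
    rw [cov_comb hν, ← alg hs i j a a']

end Pool.Agent.P.MP_d66c6d_pr
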